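import Mathlib

/-!
Frobenius pushforwards, free rank, Hilbert-Kunz functions.
-/

namespace Pool.Agent.W_MP_35cfd6_ag

open IsLocalRing

/-- The Frobenius pushforward `F^e_* N` of a module `N` over a ring of characteristic `p`: the same
additive group, on which `a` acts as `a ^ p ^ e`. For `N = R` a domain this is the `R`-module
`R^{1/p^e}`. -/
def FPush (_p _e : ℕ) (N : Type*) : Type _ := N

instance (p e : ℕ) (N : Type*) [AddCommGroup N] : AddCommGroup (FPush p e N) :=
  inferInstanceAs (AddCommGroup N)

noncomputable instance (p e : ℕ) (R N : Type*) [Fact p.Prime] [CommRing R] [CharP R p]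
    [AddCommGroup N] [Module R N] : Module R (FPush p e N) :=
  Module.compHom N (iterateFrobenius R p e)

instance charP_residueField (p : ℕ) (R : Type*) [Fact p.Prime] [CommRing R] [CharP R p]
    [IsLocalRing R] : CharP (ResidueField R) p := by
  have h : ((p : ℕ) : ResidueField R) = 0 := by
    have h1 : ((p : ℕ) : R) = 0 := CharP.cast_eq_zero R p
    have h2 := congrArg (residue R) h1
    rwa [map_natCast, map_zero] at h2
  exact (CharP.charP_iff_prime_eq_zero (Fact.out : p.Prime)).2 h

/-- The free rank of a module: the largest `n` such that `M` has a direct summand isomorphic to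
`R^n`. -/
noncomputable def freeRank (R M : Type*) [CommRing R] [AddCommGroup M] [Module R M] : ℕ :=
  sSup {n : ℕ | ∃ (i : (Fin n → R) →ₗ[R] M) (π : M →ₗ[R] (Fin n → R)), π ∘ₗ i = LinearMap.id}

/-- The Frobenius power `I^{[p^e]}`, generated by the `x ^ p ^ e`, `x ∈ I`. -/
noncomputable def frobPow (p e : ℕ) {R : Type*} [Fact p.Prime] [CommRing R] [CharP R p]
    (I : Ideal R) : Ideal R := I.map (iterateFrobenius R p e)

/-- The Hilbert-Kunz function `e ↦ ℓ(R / I^{[p^e]})`. -/
noncomputable def HK (p : ℕ) {R : Type*} [Fact p.Prime] [CommRing R] [CharP R p] (I : Ideal R)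
    (e : ℕ) : ℕ := (Module.length R (R ⧸ frobPow p e I)).toNat

/-- `J / I` for ideals `I ≤ J`. -/
noncomputable def lengthBetween {R : Type*} [CommRing R] (I J : Ideal R) : ℕ :=
  (Module.length R (J ⧸ (Submodule.comap J.subtype I))).toNat

end Pool.Agent.W_MP_35cfd6_ag
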