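import Mathlib
import Pool.Agent.W_MP_35cfd6_ag.Defs

/-!
Coordinates for the Frobenius pushforward of a power series ring.
-/

namespace Pool.Agent.W_MP_35cfd6_ag

open MvPowerSeries

/-- An element of `N` seen in its Frobenius pushforward. -/
def toF {p e : ℕ} {N : Type*} (x : N) : FPush p e N := x

/-- An element of the Frobenius pushforward of `N` seen in `N`. -/
def ofF {p e : ℕ} {N : Type*} (x : FPush p e N) : N := x

variable {k σ : Type*} [Field k] (p : ℕ) [Fact p.Prime] [CharP k p]

theorem coeff_pow_smul (s : MvPowerSeries σ k) (e : ℕ) (i : σ →₀ ℕ) :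
    coeff ((p ^ e) • i) (s ^ p ^ e) = (coeff i s) ^ p ^ e := by
  have hp : p ≠ 0 := (Fact.out : p.Prime).ne_zero
  have : ExpChar k p := ExpChar.prime Fact.out
  rw [← map_iterateFrobenius_expand p hp s e, coeff_map, coeff_expand_smul, iterateFrobenius_def]

theorem coeff_pow_of_not_dvd (s : MvPowerSeries σ k) (e : ℕ) {i : σ →₀ ℕ} {j : σ}
    (h : ¬ p ^ e ∣ i j) : coeff i (s ^ p ^ e) = 0 := by
  have hp : p ≠ 0 := (Fact.out : p.Prime).ne_zero
  have : ExpChar k p := ExpChar.prime Fact.out
  rw [← map_iterateFrobenius_expand p hp s e, coeff_map, coeff_expand_of_not_dvd _ _ _ h, map_zero]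

/-- The coefficients of `s ^ q * f`. -/
theorem coeff_pow_mul [DecidableEq σ] (s f : MvPowerSeries σ k) (e : ℕ) (β α : σ →₀ ℕ) (hα : ∀ j, α j < p ^ e) :
    coeff (p ^ e • β + α) (s ^ p ^ e * f) =
      ∑ y ∈ Finset.HasAntidiagonal.antidiagonal β, (coeff y.1 s) ^ p ^ e * coeff (p ^ e • y.2 + α) f := by
  classical
  have hq : 0 < p ^ e := pow_pos (Fact.out : p.Prime).pos e
  rw [coeff_mul]
  symm
  have h1 : ∀ y ∈ Finset.HasAntidiagonal.antidiagonal β,
      (coeff y.1 s) ^ p ^ e * coeff (p ^ e • y.2 + α) f =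
        coeff (p ^ e • y.1) (s ^ p ^ e) * coeff (p ^ e • y.2 + α) f := by
    intro y _
    rw [coeff_pow_smul]
  rw [Finset.sum_congr rfl h1]
  rw [← Finset.sum_image (s := Finset.HasAntidiagonal.antidiagonal β)
    (g := fun y : (σ →₀ ℕ) × (σ →₀ ℕ) => (p ^ e • y.1, p ^ e • y.2 + α))
    (f := fun x => coeff x.1 (s ^ p ^ e) * coeff x.2 f)]
  · apply Finset.sum_subset
    · intro x hx
      rw [Finset.mem_image] at hx
      obtain ⟨y, hy, rfl⟩ := hx
      rw [Finset.HasAntidiagonal.mem_antidiagonal] at hy ⊢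
      rw [← hy, smul_add, add_assoc]
    · intro x hx hx'
      by_cases hd : ∀ j, p ^ e ∣ x.1 j
      · exfalso
        apply hx'
        rw [Finset.HasAntidiagonal.mem_antidiagonal] at hx
        rw [Finset.mem_image]
        have hxj : ∀ j, x.1 j + x.2 j = p ^ e * β j + α j := by
          intro j
          have := DFunLike.congr_fun hx j
          simpa using this
        have hle : ∀ j, x.1 j / p ^ e ≤ β j := by
          intro j
          have h2 := hxj j
          have h3 := hα j
          have h4 : x.1 j < p ^ e * (β j + 1) := by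
            rw [mul_add, mul_one]
            omega
          rw [mul_comm] at h4
          have h5 := (Nat.div_lt_iff_lt_mul hq).2 h4
          omega
        refine ⟨(x.1.mapRange (fun t => t / p ^ e) (by simp),
          β - x.1.mapRange (fun t => t / p ^ e) (by simp)), ?_, ?_⟩
        · rw [Finset.HasAntidiagonal.mem_antidiagonal]
          apply add_tsub_cancel_of_le
          intro j
          simpa using hle j
        · have e1 : ∀ j, p ^ e * (x.1 j / p ^ e) = x.1 j := fun j => Nat.mul_div_cancel' (hd j)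
          apply Prod.ext
          · ext j
            simpa using e1 j
          · ext j
            simp only [Finsupp.coe_add, Finsupp.coe_smul, Pi.add_apply, Pi.smul_apply,
              Finsupp.coe_tsub, Pi.sub_apply, Finsupp.mapRange_apply, smul_eq_mul]
            rw [Nat.mul_sub, e1]
            have h2 := hxj j
            have h5 : x.1 j ≤ p ^ e * β j := by
              rw [← e1 j]
              exact Nat.mul_le_mul_left _ (hle j)
            omega
      · push Not at hd
        obtain ⟨j, hj⟩ := hd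
        rw [coeff_pow_of_not_dvd p s e hj, zero_mul]
  · intro y _ y' _ h
    simp only [Prod.mk.injEq, add_left_inj] at h
    have hinj : Function.Injective fun t : σ →₀ ℕ => p ^ e • t := by
      intro t t' htt
      ext j
      have := DFunLike.congr_fun htt j
      simp only [Finsupp.coe_smul, Pi.smul_apply, smul_eq_mul] at this
      exact Nat.eq_of_mul_eq_mul_left hq this
    exact Prod.ext (hinj h.1) (hinj h.2)

variable {p} in
/-- The coordinate of a power series at `X^α λ`, for a `q`-inverse-linear functional `κ`. -/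
noncomputable def coord {e : ℕ} (κ : FPush p e k →ₗ[k] k) (α : σ →₀ ℕ) (f : MvPowerSeries σ k) :
    MvPowerSeries σ k := fun β => κ (toF (coeff (p ^ e • β + α) f))

variable {p} in
theorem coeff_coord {e : ℕ} (κ : FPush p e k →ₗ[k] k) (α β : σ →₀ ℕ) (f : MvPowerSeries σ k) :
    coeff β (coord κ α f) = κ (toF (coeff (p ^ e • β + α) f)) := rfl

variable {p} in
theorem coord_add {e : ℕ} (κ : FPush p e k →ₗ[k] k) (α : σ →₀ ℕ) (f g : MvPowerSeries σ k) :
    coord κ α (f + g) = coord κ α f + coord κ α g := by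
  ext β
  rw [map_add, coeff_coord, coeff_coord, coeff_coord, map_add]
  exact map_add κ (toF _) (toF _)

variable {p} in
theorem coord_zero {e : ℕ} (κ : FPush p e k →ₗ[k] k) (α : σ →₀ ℕ) :
    coord κ α (0 : MvPowerSeries σ k) = 0 := by
  ext β
  rw [coeff_coord, map_zero, map_zero]
  exact map_zero κ

variable {p} in
theorem coord_sum {e : ℕ} (κ : FPush p e k →ₗ[k] k) (α : σ →₀ ℕ) {ι : Type*} (s : Finset ι)
    (f : ι → MvPowerSeries σ k) :
    coord κ α (∑ i ∈ s, f i) = ∑ i ∈ s, coord κ α (f i) := by
  classical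
  induction s using Finset.induction_on with
  | empty => simp [coord_zero]
  | insert a s ha ih => rw [Finset.sum_insert ha, Finset.sum_insert ha, coord_add, ih]

variable {p} in
theorem coord_pow_mul {e : ℕ} (κ : FPush p e k →ₗ[k] k) {α : σ →₀ ℕ} (hα : ∀ j, α j < p ^ e)
    (s f : MvPowerSeries σ k) : coord κ α (s ^ p ^ e * f) = s * coord κ α f := by
  classical
  ext β
  rw [coeff_coord, coeff_pow_mul p s f e β α hα, coeff_mul]
  have h1 : κ (toF (∑ y ∈ Finset.HasAntidiagonal.antidiagonal β,
      (coeff y.1 s) ^ p ^ e * coeff (p ^ e • y.2 + α) f)) =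
      ∑ y ∈ Finset.HasAntidiagonal.antidiagonal β,
        κ (toF ((coeff y.1 s) ^ p ^ e * coeff (p ^ e • y.2 + α) f)) :=
    map_sum κ (fun y : (σ →₀ ℕ) × (σ →₀ ℕ) =>
      toF ((coeff y.1 s) ^ p ^ e * coeff (p ^ e • y.2 + α) f)) _
  rw [h1]
  refine Finset.sum_congr rfl fun y _ => ?_
  rw [coeff_coord]
  exact κ.map_smul (coeff y.1 s) (toF (coeff (p ^ e • y.2 + α) f))

/-- Reconstruction of a power series from its coordinates. -/
theorem coord_sum_eq [Finite σ] {e : ℕ} {δ : Type*} [Fintype δ]
    (b : Module.Basis δ k (FPush p e k)) (box : Finset (σ →₀ ℕ))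
    (hbox : ∀ α, α ∈ box ↔ ∀ j, α j < p ^ e) (f : MvPowerSeries σ k) :
    ∑ α ∈ box, ∑ l, coord (b.coord l) α f ^ p ^ e * monomial α (ofF (b l)) = f := by
  classical
  have hq : 0 < p ^ e := pow_pos (Fact.out : p.Prime).pos e
  ext γ
  let β : σ →₀ ℕ := γ.mapRange (fun t => t / p ^ e) (by simp)
  let α0 : σ →₀ ℕ := γ.mapRange (fun t => t % p ^ e) (by simp)
  have hγ : p ^ e • β + α0 = γ := by
    ext j
    simp only [β, α0, Finsupp.coe_add, Finsupp.coe_smul, Pi.add_apply, Pi.smul_apply,
      Finsupp.mapRange_apply, smul_eq_mul]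
    exact Nat.div_add_mod _ _
  have hα0 : α0 ∈ box := by
    rw [hbox]
    intro j
    exact Nat.mod_lt _ hq
  rw [map_sum, Finset.sum_eq_single α0]
  · rw [map_sum]
    have h1 : ∀ l, coeff γ (coord (b.coord l) α0 f ^ p ^ e * monomial α0 (ofF (b l))) =
        (b.coord l (toF (coeff γ f))) ^ p ^ e * ofF (b l) := by
      intro l
      rw [coeff_mul_monomial, if_pos (by rw [← hγ]; exact le_add_self)]
      have h2 : γ - α0 = p ^ e • β := by
        rw [← hγ, add_tsub_cancel_right]
      rw [h2, coeff_pow_smul, coeff_coord, hγ]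
    rw [Finset.sum_congr rfl fun l _ => h1 l]
    exact b.sum_repr (toF (coeff γ f))
  · intro α hα hne
    rw [map_sum]
    apply Finset.sum_eq_zero
    intro l _
    rw [coeff_mul_monomial]
    split_ifs with hle
    · have hex : ∃ j, ¬ p ^ e ∣ (γ - α) j := by
        by_contra hcon
        push Not at hcon
        apply hne
        ext j
        have h1 := hcon j
        have h2 := (hbox α).1 hα j
        have h3 : α j ≤ γ j := hle j
        have h4 : (γ - α) j = γ j - α j := rfl
        rw [h4] at h1
        obtain ⟨c, hc⟩ := h1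
        have h5 : γ j = α j + p ^ e * c := by omega
        change α j = γ j % p ^ e
        rw [h5, Nat.add_mul_mod_self_left, Nat.mod_eq_of_lt h2]
      obtain ⟨j, hj⟩ := hex
      rw [coeff_pow_of_not_dvd p _ e hj, zero_mul]
    · rfl
  · intro h
    exact absurd hα0 h

end Pool.Agent.W_MP_35cfd6_ag
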