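import Pool.Agent.W_MP_35cfd6_ag.Defs

/-!
Lengths of Frobenius pushforwards.
-/

namespace Pool.Agent.W_MP_35cfd6_ag

open IsLocalRing

variable {p e : ℕ} {R : Type*} [Fact p.Prime] [CommRing R] [CharP R p]

theorem fpush_smul {N : Type*} [AddCommGroup N] [Module R N] (a : R) (x : FPush p e N) :
    (a • x : FPush p e N) = ((a ^ p ^ e) • (show N from x) : N) := by
  change (iterateFrobenius R p e a) • (show N from x) = _
  rw [iterateFrobenius_def]

/-- Functoriality of the pushforward. -/
noncomputable def fpushMap {N N' : Type*} [AddCommGroup N] [Module R N] [AddCommGroup N']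
    [Module R N'] (f : N →ₗ[R] N') : FPush p e N →ₗ[R] FPush p e N' where
  toFun := f
  map_add' := f.map_add
  map_smul' a x := f.map_smul (iterateFrobenius R p e a) x

theorem length_fpush_eq_add {N : Type*} [AddCommGroup N] [Module R N] (L : Submodule R N) :
    Module.length R (FPush p e N) =
      Module.length R (FPush p e L) + Module.length R (FPush p e (N ⧸ L)) := by
  refine Module.length_eq_add_of_exact (fpushMap L.subtype) (fpushMap L.mkQ) ?_ ?_ ?_
  · exact L.injective_subtype
  · exact L.mkQ_surjective
  · exact LinearMap.exact_subtype_mkQ L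

/-- Congruence. -/
noncomputable def fpushCongr {N N' : Type*} [AddCommGroup N] [Module R N] [AddCommGroup N']
    [Module R N'] (f : N ≃ₗ[R] N') : FPush p e N ≃ₗ[R] FPush p e N' :=
  LinearEquiv.ofLinearMap (fpushMap f.toLinearMap) (fpushMap f.symm.toLinearMap)
    (by ext x; exact f.apply_symm_apply x) (by ext x; exact f.symm_apply_apply x)

theorem length_fpush [IsLocalRing R] {N : Type*} [AddCommGroup N] [Module R N]
    (h : IsFiniteLength R N) :
    Module.length R (FPush p e N) =
      Module.length R (FPush p e (ResidueField R)) * Module.length R N := by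
  induction h with
  | @of_subsingleton M _ _ _ =>
    have : Subsingleton (FPush p e M) := inferInstanceAs (Subsingleton M)
    rw [Module.length_eq_zero (R := R) (M := FPush p e M), Module.length_eq_zero (R := R) (M := M),
      mul_zero]
  | @of_simple_quotient M _ _ N _ _ ih =>
    rw [length_fpush_eq_add N, ih]
    have h1 : Module.length R M = Module.length R N + Module.length R (M ⧸ N) :=
      Module.length_eq_add_of_exact N.subtype N.mkQ N.injective_subtype N.mkQ_surjective
        (LinearMap.exact_subtype_mkQ N)
    rw [h1, Module.length_eq_one (R := R) (M := M ⧸ N), mul_add, mul_one]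
    congr 1
    obtain ⟨m, hm, ⟨f⟩⟩ := isSimpleModule_iff_quot_maximal.1 (inferInstance : IsSimpleModule R (M ⧸ N))
    have hm' : m = maximalIdeal R := IsLocalRing.eq_maximalIdeal hm
    subst hm'
    exact (fpushCongr f).length_eq

theorem mem_smul_top_iff (I : Ideal R) (x : R) :
    (show FPush p e R from x) ∈ (I • ⊤ : Submodule R (FPush p e R)) ↔ x ∈ frobPow p e I := by
  constructor
  · intro hx
    have h1 : (I • ⊤ : Submodule R (FPush p e R)) ≤
        LinearMap.ker (fpushMap (p := p) (e := e) (Submodule.mkQ (frobPow p e I))) := by
      rw [Submodule.smul_le]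
      intro a ha y _
      rw [LinearMap.mem_ker]
      change Submodule.mkQ (frobPow p e I) (iterateFrobenius R p e a • (show R from y)) = 0
      rw [Submodule.mkQ_apply, Submodule.Quotient.mk_eq_zero, smul_eq_mul]
      exact Ideal.mul_mem_right _ _ (Ideal.mem_map_of_mem _ ha)
    have h2 := h1 hx
    rw [LinearMap.mem_ker] at h2
    change Submodule.mkQ (frobPow p e I) x = 0 at h2
    rwa [Submodule.mkQ_apply, Submodule.Quotient.mk_eq_zero] at h2
  · intro hx
    unfold frobPow Ideal.map at hx
    refine Submodule.span_induction (R := R) (M := R) (p := fun (x : R) _ =>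
      (show FPush p e R from x) ∈ (I • ⊤ : Submodule R (FPush p e R))) ?_ ?_ ?_ ?_ hx
    · rintro _ ⟨a, ha, rfl⟩
      let o : FPush p e R := (1 : R)
      have h3 : a • o ∈ (I • ⊤ : Submodule R (FPush p e R)) :=
        Submodule.smul_mem_smul ha Submodule.mem_top
      have h4 : a • o = (show FPush p e R from iterateFrobenius R p e a) := by
        change iterateFrobenius R p e a • (1 : R) = _
        rw [smul_eq_mul, mul_one]
      rw [h4] at h3
      exact h3
    · exact Submodule.zero_mem _
    · intro y z _ _ hy hz
      exact Submodule.add_mem _ hy hz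
    · intro b y _ hy
      -- multiplication by `b` in `R` is an `R`-linear endomorphism of the pushforward
      let mb : FPush p e R →ₗ[R] FPush p e R := fpushMap (LinearMap.mulLeft R b)
      have h5 : (I • ⊤ : Submodule R (FPush p e R)).map mb ≤ I • ⊤ := by
        rw [Submodule.map_smul'']
        exact smul_mono_right _ le_top
      exact h5 (Submodule.mem_map_of_mem hy)

theorem length_quot_smul_top (I : Ideal R) :
    Module.length R (FPush p e R ⧸ (I • ⊤ : Submodule R (FPush p e R))) =
      Module.length R (FPush p e (R ⧸ frobPow p e I)) := by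
  let f : FPush p e R →ₗ[R] FPush p e (R ⧸ frobPow p e I) :=
    fpushMap (Submodule.mkQ (frobPow p e I))
  have hker : LinearMap.ker f = (I • ⊤ : Submodule R (FPush p e R)) := by
    ext x
    rw [LinearMap.mem_ker]
    change Submodule.mkQ (frobPow p e I) (show R from x) = 0 ↔ _
    rw [Submodule.mkQ_apply, Submodule.Quotient.mk_eq_zero]
    exact (mem_smul_top_iff I x).symm
  have hsurj : LinearMap.range f = ⊤ := by
    rw [LinearMap.range_eq_top]
    exact Submodule.mkQ_surjective (frobPow p e I)
  rw [← hker]
  exact (f.quotKerEquivRange.trans ((LinearEquiv.ofEq _ _ hsurj).trans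
    Submodule.topEquiv)).length_eq

theorem length_quot_smul_top_eq [IsLocalRing R] (I : Ideal R)
    (h : IsFiniteLength R (R ⧸ frobPow p e I)) :
    Module.length R (FPush p e R ⧸ (I • ⊤ : Submodule R (FPush p e R))) =
      Module.length R (FPush p e (ResidueField R)) * Module.length R (R ⧸ frobPow p e I) := by
  rw [length_quot_smul_top, length_fpush h]

end Pool.Agent.W_MP_35cfd6_ag
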