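import Pool.Agent.W_MP_35cfd6_ag.Split

/-!
The numerical identity.
-/

namespace Pool.Agent.W_MP_35cfd6_ag

open IsLocalRing

theorem isFiniteLength_quot {R : Type*} [CommRing R] [IsLocalRing R] [IsNoetherianRing R]
    {K : Ideal R} {n : ℕ} (hK : maximalIdeal R ^ n ≤ K) : IsFiniteLength R (R ⧸ K) := by
  rw [isFiniteLength_iff_isNoetherian_isArtinian]
  refine ⟨inferInstance, ?_⟩
  by_cases h : K = ⊤
  · subst h
    have : Subsingleton (R ⧸ (⊤ : Ideal R)) := Ideal.Quotient.subsingleton_iff.2 rfl
    infer_instance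
  have : Nontrivial (R ⧸ K) := Ideal.Quotient.nontrivial_iff.2 h
  have : IsLocalRing (R ⧸ K) := IsLocalRing.of_surjective' (Ideal.Quotient.mk K)
    Ideal.Quotient.mk_surjective
  have hart : IsArtinianRing (R ⧸ K) := by
    rw [isArtinianRing_iff_isNilpotent_maximalIdeal]
    refine ⟨n, ?_⟩
    rw [Ideal.zero_eq_bot, eq_bot_iff]
    have h1 : maximalIdeal (R ⧸ K) ≤ (maximalIdeal R).map (Ideal.Quotient.mk K) := by
      intro x hx
      obtain ⟨y, rfl⟩ := Ideal.Quotient.mk_surjective x
      apply Ideal.mem_map_of_mem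
      rw [mem_maximalIdeal] at hx ⊢
      intro hy
      exact hx (hy.map _)
    refine (Ideal.pow_right_mono h1 n).trans ?_
    rw [← Ideal.map_pow, Ideal.map_le_iff_le_comap]
    intro x hx
    rw [Ideal.mem_comap, Ideal.mem_bot, Ideal.Quotient.eq_zero_iff_mem]
    exact hK hx
  exact isArtinian_of_surjective_algebraMap (S := R) (R := R ⧸ K) (M := R ⧸ K)
    Ideal.Quotient.mk_surjective

variable {p : ℕ} {R : Type*} [Fact p.Prime] [CommRing R] [CharP R p]

theorem pow_le_frobPow [IsNoetherianRing R] {I m : Ideal R} {n : ℕ} (h : m ^ n ≤ I) (e : ℕ) :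
    ∃ N, m ^ N ≤ frobPow p e I := by
  -- `I ≤ radical (frobPow I)`, `I` is finitely generated
  have h1 : I ≤ (frobPow p e I).radical := by
    intro x hx
    refine ⟨p ^ e, ?_⟩
    have := Ideal.mem_map_of_mem (iterateFrobenius R p e) hx
    rwa [iterateFrobenius_def] at this
  obtain ⟨k, hk⟩ := Ideal.exists_pow_le_of_le_radical_of_fg h1 (IsNoetherian.noetherian I)
  refine ⟨n * k, ?_⟩
  rw [pow_mul]
  exact (Ideal.pow_right_mono h k).trans hk

theorem identity [IsLocalRing R] [IsNoetherianRing R] {I J : Ideal R} (hIJ : I < J) {n : ℕ}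
    (hn : maximalIdeal R ^ n ≤ I) (e : ℕ) [Module.Finite R (FPush p e R)]
    [Module.Finite (ResidueField R) (FPush p e (ResidueField R))]
    (H : ∀ (π : FPush p e R →ₗ[R] (Fin (freeRank R (FPush p e R)) → R)),
      (∀ (f : LinearMap.ker π →ₗ[R] R) (z : LinearMap.ker π), ¬ IsUnit (f z)) →
      (∃ i : (Fin (freeRank R (FPush p e R)) → R) →ₗ[R] FPush p e R, π ∘ₗ i = LinearMap.id) →
      (J • ⊤ : Submodule R (LinearMap.ker π)) = I • ⊤) :
    (freeRank R (FPush p e R) : ℚ) /
        (Module.finrank (ResidueField R) (FPush p e (ResidueField R)) : ℚ) =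
      ((HK p I e : ℚ) - (HK p J e : ℚ)) / (lengthBetween I J : ℚ) := by
  obtain ⟨i, π, hπ, hu⟩ := exists_split (R := R) (M := FPush p e R)
  have hJI := H π hu ⟨i, hπ⟩
  obtain ⟨N, hN⟩ := pow_le_frobPow (p := p) hn e
  have hNJ : maximalIdeal R ^ N ≤ frobPow p e J := hN.trans (Ideal.map_mono hIJ.le)
  have hnJ : maximalIdeal R ^ n ≤ J := hn.trans hIJ.le
  have e1 := length_quot_split i π hπ I
  have e2 := length_quot_split i π hπ J
  rw [length_quot_smul_top_eq I (isFiniteLength_quot hN)] at e1
  rw [length_quot_smul_top_eq J (isFiniteLength_quot hNJ), hJI] at e2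
  -- the residue field extension
  have hδ : Module.length R (FPush p e (ResidueField R)) =
      Module.finrank (ResidueField R) (FPush p e (ResidueField R)) := by
    have : IsScalarTower R (ResidueField R) (FPush p e (ResidueField R)) := by
      have key : ∀ (r : R) (c x : ResidueField R),
          iterateFrobenius (ResidueField R) p e (r • c) * x =
            iterateFrobenius R p e r • (iterateFrobenius (ResidueField R) p e c * x) := by
        intro r c x
        rw [iterateFrobenius_def, iterateFrobenius_def, iterateFrobenius_def, Algebra.smul_def,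
          Algebra.smul_def, mul_pow, ← map_pow, mul_assoc]
      exact ⟨fun r c x => key r c x⟩
    rw [Module.length_eq_of_surjective (S := R) (R := ResidueField R)
      (M := FPush p e (ResidueField R)) residue_surjective, Module.length_eq_finrank]
  have hδpos : Module.finrank (ResidueField R) (FPush p e (ResidueField R)) ≠ 0 := by
    have : Nontrivial (FPush p e (ResidueField R)) := inferInstanceAs (Nontrivial (ResidueField R))
    exact Module.finrank_pos.ne'
  have hl : Module.length R (R ⧸ I) =
      Module.length R (J ⧸ (Submodule.comap J.subtype I)) + Module.length R (R ⧸ J) := by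
    refine Module.length_eq_add_of_exact (Submodule.mapQ (Submodule.comap J.subtype I) I J.subtype
      le_rfl) (Submodule.factor hIJ.le) ?_ (Submodule.factor_surjective _) ?_
    · rw [← LinearMap.ker_eq_bot, Submodule.ker_mapQ]
      exact Submodule.mkQ_map_self _
    · intro x
      obtain ⟨y, rfl⟩ := Submodule.Quotient.mk_surjective _ x
      constructor
      · intro h
        change (Submodule.Quotient.mk y : R ⧸ J) = 0 at h
        rw [Submodule.Quotient.mk_eq_zero] at h
        exact ⟨Submodule.Quotient.mk ⟨y, h⟩, rfl⟩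
      · rintro ⟨z, hz⟩
        obtain ⟨w, rfl⟩ := Submodule.Quotient.mk_surjective _ z
        rw [← hz]
        change (Submodule.Quotient.mk (w : R) : R ⧸ J) = 0
        rw [Submodule.Quotient.mk_eq_zero]
        exact w.2
  -- everything is finite
  have fI := Module.length_ne_top_iff.2 (isFiniteLength_quot hn)
  have fJ := Module.length_ne_top_iff.2 (isFiniteLength_quot hnJ)
  have fI' := Module.length_ne_top_iff.2 (isFiniteLength_quot hN)
  have fJ' := Module.length_ne_top_iff.2 (isFiniteLength_quot hNJ)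
  obtain ⟨lI, hlI⟩ := ENat.ne_top_iff_exists.1 fI
  obtain ⟨lJ, hlJ⟩ := ENat.ne_top_iff_exists.1 fJ
  obtain ⟨kI, hkI⟩ := ENat.ne_top_iff_exists.1 fI'
  obtain ⟨kJ, hkJ⟩ := ENat.ne_top_iff_exists.1 fJ'
  rw [hδ, ← hkI, ← hlI] at e1
  rw [hδ, ← hkJ, ← hlJ] at e2
  have fB : Module.length R (J ⧸ (Submodule.comap J.subtype I)) ≠ ⊤ := by
    intro h
    rw [h, top_add] at hl
    exact fI hl
  obtain ⟨lB, hlB⟩ := ENat.ne_top_iff_exists.1 fB
  have fC : Module.length R (LinearMap.ker π ⧸ (I • ⊤ : Submodule R (LinearMap.ker π))) ≠ ⊤ := by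
    intro h
    rw [h, add_top] at e1
    exact ENat.natCast_ne_top _ (by exact_mod_cast e1)
  obtain ⟨c, hc⟩ := ENat.ne_top_iff_exists.1 fC
  rw [← hc] at e1 e2
  rw [← hlI, ← hlB, ← hlJ] at hl
  have hB : lB ≠ 0 := by
    intro h
    rw [h, Nat.cast_zero] at hlB
    have h2 := Module.length_eq_zero_iff.1 hlB.symm
    apply hIJ.not_ge
    intro x hx
    have h3 : (Submodule.Quotient.mk (⟨x, hx⟩ : J) : J ⧸ (Submodule.comap J.subtype I)) = 0 :=
      Subsingleton.elim _ _
    rw [Submodule.Quotient.mk_eq_zero] at h3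
    exact h3
  have n1 : Module.finrank (ResidueField R) (FPush p e (ResidueField R)) * kI =
      freeRank R (FPush p e R) * lI + c := by exact_mod_cast e1
  have n2 : Module.finrank (ResidueField R) (FPush p e (ResidueField R)) * kJ =
      freeRank R (FPush p e R) * lJ + c := by exact_mod_cast e2
  have n3 : lI = lB + lJ := by exact_mod_cast hl
  have hHI : HK p I e = kI := by
    unfold HK
    rw [← hkI, ENat.toNat_natCast]
  have hHJ : HK p J e = kJ := by
    unfold HK
    rw [← hkJ, ENat.toNat_natCast]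
  have hLB : lengthBetween I J = lB := by
    unfold lengthBetween
    rw [← hlB, ENat.toNat_natCast]
  rw [hHI, hHJ, hLB, div_eq_div_iff (by exact_mod_cast hδpos) (by exact_mod_cast hB)]
  have q1 : (Module.finrank (ResidueField R) (FPush p e (ResidueField R)) : ℚ) * kI =
      freeRank R (FPush p e R) * lI + c := by exact_mod_cast n1
  have q2 : (Module.finrank (ResidueField R) (FPush p e (ResidueField R)) : ℚ) * kJ =
      freeRank R (FPush p e R) * lJ + c := by exact_mod_cast n2
  have q3 : (lI : ℚ) = lB + lJ := by exact_mod_cast n3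
  rw [q3] at q1
  linarith

end Pool.Agent.W_MP_35cfd6_ag
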