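import Mathlib

/-!
Irreducible ideals inside a given primary ideal, in depth at least two.
-/

namespace Pool.Agent.W_MP_35cfd6_ag

open IsLocalRing

variable {R : Type*} [CommRing R]

/-- `u` generates the socle of `R / I` and the socle is essential. -/
def IsSocle (I : Ideal R) (u : R) : Prop := u ∉ I ∧ ∀ L : Ideal R, I < L → u ∈ L

theorem IsSocle.exists_mul {I : Ideal R} {u : R} (h : IsSocle I u) {a : R} (ha : a ∉ I) :
    ∃ b, a * b - u ∈ I := by
  have h1 : I < I ⊔ Ideal.span {a} := by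
    refine lt_of_le_of_ne le_sup_left fun h2 => ha ?_
    rw [h2]
    exact Ideal.mem_sup_right (Ideal.mem_span_singleton_self a)
  have h2 := h.2 _ h1
  rw [Submodule.mem_sup] at h2
  obtain ⟨i, hi, z, hz, hu⟩ := h2
  rw [Ideal.mem_span_singleton'] at hz
  obtain ⟨b, rfl⟩ := hz
  refine ⟨b, ?_⟩
  rw [← hu]
  have : a * b - (i + b * a) = -i := by ring
  rw [this]
  exact I.neg_mem hi

theorem IsSocle.mul_mem [IsLocalRing R] {I : Ideal R} {u : R} (h : IsSocle I u) {a : R}
    (ha : a ∈ maximalIdeal R) : a * u ∈ I := by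
  by_contra hcon
  obtain ⟨b, hb⟩ := h.exists_mul hcon
  have h1 : IsUnit (1 - a * b) := by
    by_contra hnu
    have h2 : (1 - a * b) ∈ maximalIdeal R := (mem_maximalIdeal _).2 hnu
    have h3 := (maximalIdeal R).add_mem h2 ((maximalIdeal R).mul_mem_right b ha)
    rw [sub_add_cancel] at h3
    exact (mem_maximalIdeal _).1 h3 isUnit_one
  apply h.1
  have h4 : (1 - a * b) * u ∈ I := by
    have : (1 - a * b) * u = -(a * u * b - u) := by ring
    rw [this]
    exact I.neg_mem hb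
  exact (Ideal.unit_mul_mem_iff_mem I h1).1 h4

theorem IsSocle.exists_pow_le [IsLocalRing R] [IsNoetherianRing R] {I : Ideal R} {u : R}
    (h : IsSocle I u) : ∃ n, maximalIdeal R ^ n ≤ I := by
  by_contra hcon
  push Not at hcon
  have h1 : ∀ n, u ∈ I ⊔ maximalIdeal R ^ n := by
    intro n
    apply h.2
    refine lt_of_le_of_ne le_sup_left fun h2 => hcon n ?_
    rw [h2]
    exact le_sup_right
  have h2 := Ideal.iInf_pow_smul_eq_bot_of_isLocalRing (R := R) (M := R ⧸ I) (maximalIdeal R)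
    (Ideal.IsPrime.ne_top inferInstance)
  have h3 : (Ideal.Quotient.mk I u) ∈ (⨅ i : ℕ, maximalIdeal R ^ i • ⊤ : Submodule R (R ⧸ I)) := by
    rw [Submodule.mem_iInf]
    intro n
    have h4 := h1 n
    rw [Submodule.mem_sup] at h4
    obtain ⟨i, hi, z, hz, hu⟩ := h4
    have h5 : Ideal.Quotient.mk I u = z • (1 : R ⧸ I) := by
      rw [← hu, map_add, Ideal.Quotient.eq_zero_iff_mem.2 hi, zero_add, Algebra.smul_def, mul_one]
      rfl
    rw [h5]
    exact Submodule.smul_mem_smul hz Submodule.mem_top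
  rw [h2, Submodule.mem_bot, Ideal.Quotient.eq_zero_iff_mem] at h3
  exact h.1 h3

theorem exists_isSocle_of_infIrred [IsLocalRing R] {b : Ideal R} (hb : InfIrred b) {n : ℕ}
    (hn : maximalIdeal R ^ n ≤ b) : ∃ u, IsSocle b u := by
  classical
  have hbt : b ≠ ⊤ := fun h => hb.1 (h ▸ isMax_top)
  have step : ∀ y : R, y ∉ b → ∃ c, c * y ∉ b ∧ ∀ a ∈ maximalIdeal R, a * (c * y) ∈ b := by
    intro y hy
    have hex : ∃ j, ∀ c ∈ maximalIdeal R ^ j, c * y ∈ b := ⟨n, fun c hc => b.mul_mem_right _ (hn hc)⟩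
    have hj := Nat.find_spec hex
    obtain ⟨j, hj'⟩ : ∃ j, Nat.find hex = j + 1 := by
      cases h : Nat.find hex with
      | zero =>
        rw [h] at hj
        exact absurd (by simpa using hj 1 (by simp)) hy
      | succ j => exact ⟨j, rfl⟩
    have hmin := Nat.find_min hex (m := j) (by omega)
    push Not at hmin
    obtain ⟨c, hc, hcy⟩ := hmin
    refine ⟨c, hcy, fun a ha => ?_⟩
    rw [← mul_assoc]
    apply hj
    rw [hj', pow_succ']
    exact Ideal.mul_mem_mul ha hc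
  obtain ⟨c, hc1, hc2⟩ := step 1 fun h => hbt ((Ideal.eq_top_iff_one b).2 h)
  rw [mul_one] at hc1
  simp only [mul_one] at hc2
  refine ⟨c, hc1, fun L hL => ?_⟩
  obtain ⟨y, hyL, hyb⟩ := Set.exists_of_ssubset hL
  obtain ⟨d, hd1, hd2⟩ := step y hyb
  have hvL : d * y ∈ L := L.mul_mem_left d hyL
  have h1 : b ⊔ Ideal.span {c} ≠ b := fun h => hc1 (by
    rw [← h]
    exact Ideal.mem_sup_right (Ideal.mem_span_singleton_self c))
  have h2 : b ⊔ Ideal.span {d * y} ≠ b := fun h => hd1 (by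
    rw [← h]
    exact Ideal.mem_sup_right (Ideal.mem_span_singleton_self _))
  have h3 : (b ⊔ Ideal.span {c}) ⊓ (b ⊔ Ideal.span {d * y}) ≠ b := fun h =>
    (hb.2 h).elim h1 h2
  have h4 : b < (b ⊔ Ideal.span {c}) ⊓ (b ⊔ Ideal.span {d * y}) :=
    lt_of_le_of_ne (le_inf le_sup_left le_sup_left) (Ne.symm h3)
  obtain ⟨t, ht, htb⟩ := Set.exists_of_ssubset h4
  obtain ⟨ht1, ht2⟩ := ht
  have htL : t ∈ L := by
    have h5 : b ⊔ Ideal.span {d * y} ≤ L := sup_le hL.le ((Ideal.span_singleton_le_iff_mem L).2 hvL)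
    exact h5 ht2
  change t ∈ b ⊔ Ideal.span {c} at ht1
  rw [Submodule.mem_sup] at ht1
  obtain ⟨i, hi, z, hz, hiz⟩ := ht1
  rw [Ideal.mem_span_singleton'] at hz
  obtain ⟨α, rfl⟩ := hz
  have hα : IsUnit α := by
    by_contra hnu
    apply htb
    rw [← hiz]
    exact b.add_mem hi (hc2 α ((mem_maximalIdeal _).2 hnu))
  have h6 : α * c ∈ L := by
    have : α * c = t - i := by rw [← hiz]; ring
    rw [this]
    exact L.sub_mem htL (hL.le hi)
  exact (Ideal.unit_mul_mem_iff_mem L hα).1 h6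

end Pool.Agent.W_MP_35cfd6_ag
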