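import Mathlib
import Pool.Agent.W_MP_35cfd6_ag.Irred

/-!
Functionals into `R / I` for `I` irreducible.
-/

namespace Pool.Agent.W_MP_35cfd6_ag

open IsLocalRing

theorem finite_of_isFiniteLength {k R : Type*} [Field k] [CommRing R] [IsLocalRing R] [Algebra k R]
    (hk : ∀ r : R, ∃ c : k, r - algebraMap k R c ∈ maximalIdeal R) {M : Type*} [AddCommGroup M]
    [Module R M] (h : IsFiniteLength R M) :
    ∀ [Module k M] [IsScalarTower k R M], Module.Finite k M := by
  induction h with
  | of_subsingleton => intro _ _; infer_instance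
  | @of_simple_quotient M _ _ N hs hN ih =>
    intro _ _
    have h1 : Module.Finite k N := ih
    obtain ⟨P, hP, ⟨ε⟩⟩ := isSimpleModule_iff_quot_maximal.1 hs
    have hPm : P = maximalIdeal R := eq_maximalIdeal hP
    have h2 : Module.Finite k (M ⧸ N) := by
      refine ⟨⟨{ε.symm 1}, ?_⟩⟩
      rw [eq_top_iff]
      rintro z -
      obtain ⟨r, hr⟩ := Ideal.Quotient.mk_surjective (ε z)
      obtain ⟨c, hc⟩ := hk r
      rw [Finset.coe_singleton, Submodule.mem_span_singleton]
      refine ⟨c, ?_⟩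
      apply ε.injective
      rw [← hr, ← algebraMap_smul R c, map_smul, ε.apply_symm_apply, Algebra.smul_def, mul_one,
        Ideal.Quotient.algebraMap_eq]
      symm
      rw [← sub_eq_zero, ← map_sub, Ideal.Quotient.eq_zero_iff_mem, hPm]
      exact hc
    have : Module.Finite k (N.restrictScalars k) := h1
    have : Module.Finite k (M ⧸ (N.restrictScalars k)) := h2
    exact Module.Finite.of_submodule_quotient (N.restrictScalars k)

theorem exists_functional {k R : Type*} [Field k] [CommRing R] [IsLocalRing R] [IsNoetherianRing R]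
    [Algebra k R] (hk : ∀ r : R, ∃ c : k, r - algebraMap k R c ∈ maximalIdeal R) {I : Ideal R}
    {u : R} (hI : IsSocle I u) (hlen : IsFiniteLength R (R ⧸ I)) {M : Type*} [AddCommGroup M]
    [Module R M] (z : M) (hz : u • z ∉ (I • ⊤ : Submodule R M)) :
    ∃ φ : M →ₗ[R] R ⧸ I, φ z = 1 := by
  classical
  let _ : Module k M := Module.compHom M (algebraMap k R)
  have : IsScalarTower k R M := ⟨fun c r x => by
    change (c • r) • x = algebraMap k R c • r • x
    rw [Algebra.smul_def, mul_smul]⟩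
  have hfin : Module.Finite k (R ⧸ I) := finite_of_isFiniteLength hk hlen
  -- a functional on `R / I`
  obtain ⟨lam, hlam⟩ : ∃ lam : Module.Dual k (R ⧸ I), lam (Ideal.Quotient.mk I u) = 1 := by
    have h1 : Ideal.Quotient.mk I u ≠ 0 := fun h => hI.1 (Ideal.Quotient.eq_zero_iff_mem.1 h)
    have h2 : ¬ ∀ φ : Module.Dual k (R ⧸ I), φ (Ideal.Quotient.mk I u) = 0 := fun h =>
      h1 ((Module.forall_dual_apply_eq_zero_iff k _).1 h)
    push Not at h2
    obtain ⟨φ, hφ⟩ := h2
    exact ⟨(φ (Ideal.Quotient.mk I u))⁻¹ • φ, by simp [hφ]⟩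
  obtain ⟨mu, hmu⟩ : ∃ mu : Module.Dual k (M ⧸ (I • ⊤ : Submodule R M)),
      mu (Submodule.Quotient.mk (u • z)) = 1 := by
    have h1 : (Submodule.Quotient.mk (u • z) : M ⧸ (I • ⊤ : Submodule R M)) ≠ 0 := fun h =>
      hz ((Submodule.Quotient.mk_eq_zero _).1 h)
    have h2 : ¬ ∀ φ : Module.Dual k (M ⧸ (I • ⊤ : Submodule R M)),
        φ (Submodule.Quotient.mk (u • z)) = 0 := fun h =>
      h1 ((Module.forall_dual_apply_eq_zero_iff k _).1 h)
    push Not at h2
    obtain ⟨φ, hφ⟩ := h2
    exact ⟨(φ (Submodule.Quotient.mk (u • z)))⁻¹ • φ, by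
      rw [LinearMap.smul_apply, smul_eq_mul, inv_mul_cancel₀ hφ]⟩
  -- nondegeneracy
  have hnd : ∀ c : R ⧸ I, (∀ b : R, lam (Ideal.Quotient.mk I b * c) = 0) → c = 0 := by
    intro c hc
    obtain ⟨a, rfl⟩ := Ideal.Quotient.mk_surjective c
    rw [Ideal.Quotient.eq_zero_iff_mem]
    by_contra ha
    obtain ⟨b, hb⟩ := hI.exists_mul ha
    have h1 := hc b
    rw [← map_mul] at h1
    have h2 : Ideal.Quotient.mk I (b * a) = Ideal.Quotient.mk I u := by
      rw [Ideal.Quotient.eq, mul_comm]
      exact hb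
    rw [h2, hlam] at h1
    exact one_ne_zero h1
  let θ : (R ⧸ I) →ₗ[k] Module.Dual k (R ⧸ I) := (LinearMap.mul k (R ⧸ I)).compr₂ lam
  have hθa : ∀ a b : R ⧸ I, θ a b = lam (a * b) := fun a b => rfl
  have hθ : Function.Injective θ := by
    rw [injective_iff_map_eq_zero]
    intro c hc
    apply hnd
    intro b
    rw [mul_comm, ← hθa, hc]
    rfl
  have hθs : Function.Surjective θ :=
    (LinearMap.injective_iff_surjective_of_finrank_eq_finrank
      (Subspace.dual_finrank_eq (K := k) (V := R ⧸ I)).symm).1 hθ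
  have hle : ∀ n : M, I ≤ LinearMap.ker (LinearMap.toSpanSingleton R (M ⧸ (I • ⊤ : Submodule R M))
      (Submodule.Quotient.mk n)) := by
    intro n a ha
    rw [LinearMap.mem_ker, LinearMap.toSpanSingleton_apply, ← Submodule.Quotient.mk_smul,
      Submodule.Quotient.mk_eq_zero]
    exact Submodule.smul_mem_smul ha Submodule.mem_top
  have hex : ∀ n : M, ∃ c : R ⧸ I, ∀ b : R, lam (Ideal.Quotient.mk I b * c) =
      mu (Submodule.Quotient.mk (b • n)) := by
    intro n
    obtain ⟨c, hc⟩ := hθs (mu ∘ₗ ((Submodule.liftQ I _ (hle n)).restrictScalars k))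
    refine ⟨c, fun b => ?_⟩
    rw [mul_comm, ← hθa, hc]
    rfl
  choose f hf using hex
  have huniq : ∀ (c d : R ⧸ I), (∀ b : R, lam (Ideal.Quotient.mk I b * c) =
      lam (Ideal.Quotient.mk I b * d)) → c = d := by
    intro c d h
    rw [← sub_eq_zero]
    apply hnd
    intro b
    rw [mul_sub, map_sub, h b, sub_self]
  let F : M →ₗ[R] R ⧸ I :=
    { toFun := f
      map_add' := fun x y => by
        apply huniq
        intro b
        rw [hf, mul_add, map_add, hf, hf, smul_add, Submodule.Quotient.mk_add, map_add]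
      map_smul' := fun r x => by
        apply huniq
        intro b
        rw [hf, RingHom.id_apply, Algebra.smul_def, Ideal.Quotient.algebraMap_eq, ← mul_assoc,
          ← map_mul, hf, smul_smul] }
  have hFz : ∀ b : R, lam (Ideal.Quotient.mk I b * F z) = mu (Submodule.Quotient.mk (b • z)) :=
    fun b => hf z b
  obtain ⟨a, ha⟩ := Ideal.Quotient.mk_surjective (F z)
  have hau : IsUnit a := by
    by_contra hnu
    have h1 := hFz u
    rw [hmu, ← ha, ← map_mul, mul_comm,
      Ideal.Quotient.eq_zero_iff_mem.2 (hI.mul_mem ((mem_maximalIdeal _).2 hnu)), map_zero] at h1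
    exact zero_ne_one h1
  obtain ⟨v, rfl⟩ := hau
  refine ⟨(↑v⁻¹ : R) • F, ?_⟩
  rw [LinearMap.smul_apply, ← ha, Algebra.smul_def, Ideal.Quotient.algebraMap_eq, ← map_mul,
    Units.inv_mul, map_one]

end Pool.Agent.W_MP_35cfd6_ag
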