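import Mathlib
import Pool.Agent.W_MP_35cfd6_ag.Irred

/-!
Irreducible ideals inside a given primary ideal, in depth at least two, continued.
-/

namespace Pool.Agent.W_MP_35cfd6_ag

open IsLocalRing

variable {R : Type*} [CommRing R]

/-- Syzygies of the powers of a regular sequence. -/
theorem syzygy {x y : R} (hx : ∀ a, x * a = 0 → a = 0)
    (hy : ∀ a, y * a ∈ Ideal.span {x} → a ∈ Ideal.span {x}) :
    ∀ (s : ℕ) (a : ℕ → R), ∑ j ∈ Finset.range (s + 1), a j * (x ^ j * y ^ (s - j)) = 0 →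
      ∀ j ≤ s, a j ∈ Ideal.span {x, y} := by
  intro s
  induction s with
  | zero =>
    intro a ha j hj
    have : j = 0 := by omega
    subst this
    simp at ha
    rw [ha]
    exact zero_mem _
  | succ s ih =>
    intro a ha
    have hyn : ∀ (n : ℕ) (b : R), y ^ n * b ∈ Ideal.span {x} → b ∈ Ideal.span {x} := by
      intro n
      induction n with
      | zero => intro b hb; simpa using hb
      | succ n ihn =>
        intro b hb
        rw [pow_succ', mul_assoc] at hb
        exact ihn b (hy _ hb)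
    rw [Finset.sum_range_succ'] at ha
    have h1 : ∀ j, a (j + 1) * (x ^ (j + 1) * y ^ (s + 1 - (j + 1))) =
        x * (a (j + 1) * (x ^ j * y ^ (s - j))) := by
      intro j
      rw [show s + 1 - (j + 1) = s - j by omega]
      ring
    simp only [h1, ← Finset.mul_sum, pow_zero, Nat.sub_zero, one_mul] at ha
    have h2 : y ^ (s + 1) * a 0 ∈ Ideal.span {x} := by
      rw [Ideal.mem_span_singleton']
      refine ⟨-∑ j ∈ Finset.range (s + 1), a (j + 1) * (x ^ j * y ^ (s - j)), ?_⟩
      linear_combination -ha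
    have h3 := hyn _ _ h2
    rw [Ideal.mem_span_singleton'] at h3
    obtain ⟨b, hb⟩ := h3
    have h4 : ∑ j ∈ Finset.range (s + 1), (a (j + 1) + if j = 0 then b * y else 0) *
        (x ^ j * y ^ (s - j)) = 0 := by
      apply hx
      simp only [add_mul, Finset.sum_add_distrib, ite_mul, zero_mul]
      rw [Finset.sum_ite_eq' (Finset.range (s + 1)) 0]
      simp only [Finset.mem_range, Nat.succ_pos, if_true, pow_zero, one_mul, Nat.sub_zero]
      rw [mul_add, ← ha, ← hb]
      ring
    have h5 := ih _ h4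
    have h0 : a 0 ∈ Ideal.span {x, y} := by
      rw [← hb]
      exact Ideal.mul_mem_left _ _ (Ideal.subset_span (by simp))
    intro j hj
    rcases j with _ | j
    · exact h0
    · have h6 := h5 j (by omega)
      rcases j with _ | j
      · simp only [if_true] at h6
        have h7 : b * y ∈ Ideal.span {x, y} :=
          Ideal.mul_mem_left _ _ (Ideal.subset_span (by simp))
        simpa using (Ideal.span {x, y}).sub_mem h6 h7
      · simpa using h6

/-- Gluing irreducible ideals. -/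
theorem glue [IsLocalRing R] [IsNoetherianRing R] {s : ℕ} (Q : ℕ → Ideal R) (u c : ℕ → R)
    (hQ : ∀ j ≤ s, IsSocle (Q j) (u j))
    (hc : ∀ a : ℕ → R, ∑ j ∈ Finset.range (s + 1), a j * c j = 0 → ∀ j ≤ s, a j ∈ Q j) :
    ∃ (I : Ideal R) (v : R), IsSocle I v ∧ ∀ j ≤ s, I ≤ Q j := by
  classical
  let K0 : Ideal R := {
    carrier := {z | ∃ q b : ℕ → R, (∀ j ≤ s, q j ∈ Q j) ∧
      z = ∑ j ∈ Finset.range (s + 1), (q j * c j + b j * (c j * u j - c 0 * u 0))}
    zero_mem' := ⟨0, 0, fun j _ => zero_mem _, by simp⟩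
    add_mem' := by
      rintro z z' ⟨q, b, hq, rfl⟩ ⟨q', b', hq', rfl⟩
      refine ⟨q + q', b + b', fun j hj => (Q j).add_mem (hq j hj) (hq' j hj), ?_⟩
      rw [← Finset.sum_add_distrib]
      refine Finset.sum_congr rfl fun j _ => ?_
      simp only [Pi.add_apply]
      ring
    smul_mem' := by
      rintro r z ⟨q, b, hq, rfl⟩
      refine ⟨fun j => r * q j, fun j => r * b j, fun j hj => (Q j).mul_mem_left r (hq j hj), ?_⟩
      rw [smul_eq_mul, Finset.mul_sum]
      refine Finset.sum_congr rfl fun j _ => ?_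
      ring }
  have hK1 : ∀ j ≤ s, ∀ a ∈ Q j, a * c j ∈ K0 := by
    intro j hj a ha
    refine ⟨fun i => if i = j then a else 0, 0, fun i _ => ?_, ?_⟩
    · dsimp only
      split_ifs with h
      · rw [h]; exact ha
      · exact zero_mem _
    · simp only [ite_mul, zero_mul, Pi.zero_apply, add_zero]
      rw [Finset.sum_ite_eq' (Finset.range (s + 1)) j]
      rw [if_pos (Finset.mem_range.2 (by omega))]
  have hK2 : ∀ j ≤ s, c j * u j - c 0 * u 0 ∈ K0 := by
    intro j hj
    refine ⟨0, fun i => if i = j then 1 else 0, fun i _ => zero_mem _, ?_⟩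
    simp only [ite_mul, one_mul, zero_mul, Pi.zero_apply, zero_add]
    rw [Finset.sum_ite_eq' (Finset.range (s + 1)) j]
    rw [if_pos (Finset.mem_range.2 (by omega))]
  have hu : c 0 * u 0 ∉ K0 := by
    rintro ⟨q, b, hq, hz⟩
    have h1 : ∑ j ∈ Finset.range (s + 1), (q j + b j * u j - if j = 0 then
        (u 0 + (∑ i ∈ Finset.range (s + 1), b i) * u 0) else 0) * c j = 0 := by
      simp only [sub_mul, ite_mul, zero_mul, Finset.sum_sub_distrib]
      rw [Finset.sum_ite_eq' (Finset.range (s + 1)) 0]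
      rw [if_pos (Finset.mem_range.2 (by omega))]
      have h2 : ∑ j ∈ Finset.range (s + 1), (q j * c j + b j * (c j * u j - c 0 * u 0)) =
          ∑ j ∈ Finset.range (s + 1), (q j + b j * u j) * c j -
            (∑ j ∈ Finset.range (s + 1), b j) * (c 0 * u 0) := by
        rw [Finset.sum_mul, ← Finset.sum_sub_distrib]
        refine Finset.sum_congr rfl fun j _ => ?_
        ring
      rw [h2] at hz
      linear_combination -hz
    have h3 := hc _ h1
    have hb : ∀ j ≤ s, j ≠ 0 → b j ∈ maximalIdeal R := by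
      intro j hj hj0
      have h4 := h3 j hj
      simp only [hj0, if_false, sub_zero] at h4
      have h5 : b j * u j ∈ Q j := by
        simpa using (Q j).sub_mem h4 (hq j hj)
      by_contra hnu
      have h6 : IsUnit (b j) := by
        by_contra h7
        exact hnu ((mem_maximalIdeal _).2 h7)
      exact (hQ j hj).1 ((Ideal.unit_mul_mem_iff_mem (Q j) h6).1 h5)
    have h4 := h3 0 (Nat.zero_le _)
    simp only [if_true] at h4
    rw [Finset.sum_range_succ'] at h4
    have h5 : (1 + ∑ j ∈ Finset.range s, b (j + 1)) * u 0 ∈ Q 0 := by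
      have h6 := (Q 0).sub_mem (hq 0 (Nat.zero_le _)) h4
      convert h6 using 1
      ring
    have h6 : ∑ j ∈ Finset.range s, b (j + 1) ∈ maximalIdeal R :=
      Ideal.sum_mem _ fun j hj => hb (j + 1) (by have := Finset.mem_range.1 hj; omega) (by omega)
    have h7 : IsUnit (1 + ∑ j ∈ Finset.range s, b (j + 1)) := by
      by_contra hnu
      have h8 := (maximalIdeal R).sub_mem ((mem_maximalIdeal _).2 hnu) h6
      rw [add_sub_cancel_right] at h8
      exact (mem_maximalIdeal _).1 h8 isUnit_one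
    exact (hQ 0 (Nat.zero_le _)).1 ((Ideal.unit_mul_mem_iff_mem (Q 0) h7).1 h5)
  obtain ⟨I, hKI, hImax⟩ : ∃ I, K0 ≤ I ∧ Maximal (fun L : Ideal R => c 0 * u 0 ∉ L) I := by
    have hwf : WellFounded ((· > ·) : Ideal R → Ideal R → Prop) := wellFounded_gt
    obtain ⟨I, hI, hI2⟩ := hwf.has_min {L : Ideal R | K0 ≤ L ∧ c 0 * u 0 ∉ L} ⟨K0, le_rfl, hu⟩
    refine ⟨I, hI.1, hI.2, ?_⟩
    intro L hL hIL
    by_contra hcon
    exact hI2 L ⟨hI.1.trans hIL, hL⟩ (lt_of_le_not_ge hIL hcon)
  have hsoc : IsSocle I (c 0 * u 0) := by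
    refine ⟨hImax.1, fun L hL => ?_⟩
    by_contra hcon
    exact absurd (hImax.2 hcon hL.le) (not_le_of_gt hL)
  refine ⟨I, c 0 * u 0, hsoc, fun j hj => ?_⟩
  let C : Ideal R := Submodule.comap (LinearMap.mulLeft R (c j)) I
  have hC : ∀ a, a ∈ C ↔ c j * a ∈ I := fun a => Iff.rfl
  have h1 : Q j ≤ C := fun a ha => (hC a).2 (by rw [mul_comm]; exact hKI (hK1 j hj a ha))
  have h2 : I ≤ C := fun a ha => (hC a).2 (I.mul_mem_left _ ha)
  rcases eq_or_lt_of_le h1 with h | h
  · rw [h]; exact h2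
  · exfalso
    have h3 := (hQ j hj).2 _ h
    rw [hC] at h3
    have h4 := I.sub_mem h3 (hKI (hK2 j hj))
    rw [sub_sub_cancel] at h4
    exact hImax.1 h4

theorem exists_regular_pair [IsLocalRing R] [IsNoetherianRing R] [IsDomain R]
    [IsIntegrallyClosed R] (hp : ¬ (maximalIdeal R).IsPrincipal) (N : ℕ) :
    ∃ x y, x ∈ maximalIdeal R ^ N ∧ y ∈ maximalIdeal R ^ N ∧ x ≠ 0 ∧
      ∀ a, y * a ∈ Ideal.span {x} → a ∈ Ideal.span {x} := by
  classical
  have ne_bot : maximalIdeal R ≠ ⊥ := fun h => hp (by rw [h]; infer_instance)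
  obtain ⟨a, ha₁, ha₂⟩ : ∃ a ∈ maximalIdeal R, a ≠ (0 : R) := by
    by_contra! h'; apply ne_bot; rwa [eq_bot_iff]
  refine ⟨a ^ (N + 1), ?_⟩
  set x : R := a ^ (N + 1) with hxdef
  have hx0 : x ≠ 0 := pow_ne_zero _ ha₂
  have hxm : x ∈ maximalIdeal R := by
    rw [hxdef, pow_succ]
    exact Ideal.mul_mem_left _ _ ha₁
  have hxN : x ∈ maximalIdeal R ^ N := Ideal.pow_le_pow_right (Nat.le_succ N)
    (Ideal.pow_mem_pow ha₁ _)
  by_contra hcon
  push Not at hcon
  have hne : Ideal.span {x} ≠ ⊤ := by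
    intro h
    have h1 : Ideal.span {x} ≤ maximalIdeal R := (Ideal.span_singleton_le_iff_mem _).2 hxm
    rw [h] at h1
    exact Ideal.IsPrime.ne_top inferInstance (top_le_iff.1 h1)
  haveI : Nontrivial (R ⧸ Ideal.span {x}) := Ideal.Quotient.nontrivial_iff.2 hne
  have hexist : ∃ P ∈ associatedPrimes R (R ⧸ Ideal.span {x}), maximalIdeal R ^ N ≤ P := by
    rcases associatedPrimes.nonempty R (R ⧸ Ideal.span {x}) with ⟨Ia, hIa⟩
    apply (Ideal.subset_union_prime_finite (associatedPrimes.finite R (R ⧸ Ideal.span {x}))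
      Ia Ia _).mp
    · rw [biUnion_associatedPrimes_eq_compl_regular R (R ⧸ Ideal.span {x})]
      intro y hy
      obtain ⟨b, hb1, hb2⟩ := hcon y hxN hy hx0
      intro hreg
      apply hb2
      have h3 : IsSMulRegular (R ⧸ Ideal.span {x}) y := hreg
      have h4 : y • (Ideal.Quotient.mk (Ideal.span {x}) b) = y • 0 := by
        rw [smul_zero, Algebra.smul_def, Ideal.Quotient.algebraMap_eq, ← map_mul]
        exact Ideal.Quotient.eq_zero_iff_mem.2 hb1
      exact Ideal.Quotient.eq_zero_iff_mem.1 (h3 h4)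
    · exact fun I hin _ _ ↦ IsAssociatedPrime.isPrime hin
  obtain ⟨P, hP, hNP⟩ := hexist
  have hPp : P.IsPrime := hP.isPrime
  have hPm : P = maximalIdeal R :=
    le_antisymm (le_maximalIdeal hPp.ne_top) (hPp.le_of_pow_le hNP)
  obtain ⟨-, z, hz⟩ := isAssociatedPrime_iff.1 (AssociatedPrimes.mem_iff.1 hP)
  obtain ⟨b, rfl⟩ := Ideal.Quotient.mk_surjective z
  rw [hPm] at hz
  have hann : ∀ m ∈ maximalIdeal R, b * m ∈ Ideal.span {x} := by
    intro m hm
    rw [hz, Submodule.mem_colon_singleton, Submodule.mem_bot, Algebra.smul_def,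
      Ideal.Quotient.algebraMap_eq, ← map_mul, Ideal.Quotient.eq_zero_iff_mem] at hm
    rwa [mul_comm]
  have hbx : b ∉ Ideal.span {x} := by
    intro h
    have h1 : (1 : R) ∈ maximalIdeal R := by
      rw [hz, Submodule.mem_colon_singleton, Submodule.mem_bot, one_smul,
        Ideal.Quotient.eq_zero_iff_mem]
      exact h
    exact (mem_maximalIdeal _).1 h1 isUnit_one
  have hb₃ : ∀ m ∈ maximalIdeal R, ∃ k : R, k * x = b * m := by
    intro m hm; rw [← Ideal.mem_span_singleton']; exact hann m hm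
  have hb₄ : b ≠ 0 := by rintro rfl; apply hbx; exact zero_mem _
  let K := FractionRing R
  let t : K := algebraMap R K b / algebraMap R K x
  let M := Submodule.map (Algebra.linearMap R K) (maximalIdeal R)
  have ha₃ : algebraMap R K x ≠ 0 := IsFractionRing.to_map_eq_zero_iff.not.mpr hx0
  by_cases hx : ∀ y ∈ M, t * y ∈ M
  · have := isIntegral_of_smul_mem_submodule M ?_ ?_ t hx
    · obtain ⟨y, e⟩ := IsIntegrallyClosed.algebraMap_eq_of_integral this
      refine (hbx (Ideal.mem_span_singleton'.mpr ⟨y, ?_⟩)).elim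
      apply IsFractionRing.injective R K
      rw [map_mul, e, div_mul_cancel₀ _ ha₃]
    · rw [Submodule.ne_bot_iff]; refine ⟨_, ⟨a, ha₁, rfl⟩, ?_⟩
      exact (IsFractionRing.to_map_eq_zero_iff (K := K)).not.mpr ha₂
    · apply Submodule.FG.map; exact IsNoetherian.noetherian _
  · have :
        (M.map (DistribSMul.toLinearMap R K t)).comap (Algebra.linearMap R K) = ⊤ := by
      contrapose! hx with h
      rintro m' ⟨m, hm, rfl : algebraMap R K m = m'⟩
      obtain ⟨k, hk⟩ := hb₃ m hm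
      have hk' : t * algebraMap R K m = algebraMap R K k := by
        rw [← mul_div_right_comm, ← map_mul, ← hk, map_mul, mul_div_cancel_right₀ _ ha₃]
      exact ⟨k, le_maximalIdeal h ⟨_, ⟨_, hm, rfl⟩, hk'⟩, hk'.symm⟩
    obtain ⟨y, hy₁, hy₂⟩ : ∃ y ∈ maximalIdeal R, b * y = x := by
      rw [Ideal.eq_top_iff_one, Submodule.mem_comap] at this
      obtain ⟨_, ⟨y, hy, rfl⟩, hy' : t * algebraMap R K y = algebraMap R K 1⟩ := this
      rw [map_one, ← mul_div_right_comm, div_eq_one_iff_eq ha₃, ← map_mul] at hy'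
      exact ⟨y, hy, IsFractionRing.injective R K hy'⟩
    refine hp ⟨⟨y, ?_⟩⟩
    apply le_antisymm
    · intro m hm; obtain ⟨k, hk⟩ := hb₃ m hm; rw [← hy₂, mul_comm, mul_assoc] at hk
      rw [← mul_left_cancel₀ hb₄ hk, mul_comm]; exact Ideal.mem_span_singleton'.mpr ⟨_, rfl⟩
    · rwa [Submodule.span_le, Set.singleton_subset_iff]

/-- In a Noetherian normal local domain whose maximal ideal is not principal every primary ideal
for the maximal ideal contains an irreducible one. -/
theorem exists_isSocle_le [IsLocalRing R] [IsNoetherianRing R] [IsDomain R]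
    [IsIntegrallyClosed R] (hp : ¬ (maximalIdeal R).IsPrincipal) {K : Ideal R} (hK : K ≠ ⊤)
    {N : ℕ} (hN : maximalIdeal R ^ N ≤ K) : ∃ (I : Ideal R) (v : R), IsSocle I v ∧ I ≤ K := by
  classical
  obtain ⟨F, hF, hFi⟩ := exists_infIrred_decomposition K
  have hFle : ∀ b ∈ F, maximalIdeal R ^ N ≤ b := by
    intro b hb
    have h1 : K ≤ b := by
      rw [← hF]
      exact Finset.inf_le hb
    exact hN.trans h1
  have hne : F.Nonempty := by
    rw [Finset.nonempty_iff_ne_empty]
    rintro rfl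
    simp at hF
    exact hK hF.symm
  obtain ⟨s, hs⟩ : ∃ s, F.card = s + 1 := ⟨F.card - 1, by have := hne.card_pos; omega⟩
  let E := F.equivFin
  obtain ⟨b0, hb0⟩ := hne
  let Q : ℕ → Ideal R := fun j => if h : j < F.card then (E.symm ⟨j, h⟩ : Ideal R) else b0
  have hQF : ∀ j, Q j ∈ F := by
    intro j
    simp only [Q]
    split_ifs with h
    · exact (E.symm ⟨j, h⟩).2
    · exact hb0
  have hex : ∀ j, ∃ u, IsSocle (Q j) u := fun j =>
    exists_isSocle_of_infIrred (hFi (hQF j)) (hFle _ (hQF j))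
  choose u hu using hex
  obtain ⟨x, y, hx, hy, hx0, hxy⟩ := exists_regular_pair hp N
  have hsyz := syzygy (x := x) (y := y) (fun a ha => (mul_eq_zero.1 ha).resolve_left hx0) hxy s
  have hle : Ideal.span {x, y} ≤ maximalIdeal R ^ N := by
    rw [Ideal.span_le]
    intro z hz
    rcases hz with rfl | hz
    · exact hx
    · rw [Set.mem_singleton_iff] at hz
      rw [hz]
      exact hy
  obtain ⟨I, v, hI, hIQ⟩ := glue (s := s) Q u (fun j => x ^ j * y ^ (s - j)) (fun j _ => hu j)
    (fun a ha j hj => hFle _ (hQF j) (hle (hsyz a ha j hj)))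
  refine ⟨I, v, hI, ?_⟩
  rw [← hF]
  apply Finset.le_inf
  intro b hb
  have h1 : Q (E ⟨b, hb⟩) = b := by
    simp only [Q]
    rw [dif_pos (E ⟨b, hb⟩).2]
    simp
  rw [id, ← h1]
  exact hIQ _ (by have := (E ⟨b, hb⟩).2; omega)

end Pool.Agent.W_MP_35cfd6_ag
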