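import Mathlib
import Pool.Agent.W_MP_35cfd6_ag.Coord

/-!
Lifting functionals on the Frobenius pushforward of a graded ring.
-/

namespace Pool.Agent.W_MP_35cfd6_ag

open MvPowerSeries Finsupp

variable {k σ : Type*} [Field k]

theorem component_mul (w : σ → ℕ) {G : MvPowerSeries σ k} {D : ℕ}
    (hG : G.IsWeightedHomogeneous w D) (c : MvPowerSeries σ k) (t : ℕ) :
    weightedHomogeneousComponent w t (c * G) =
      if D ≤ t then weightedHomogeneousComponent w (t - D) c * G else 0 := by
  classical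
  ext β
  rw [coeff_weightedHomogeneousComponent]
  have key : ∀ x ∈ Finset.HasAntidiagonal.antidiagonal β, coeff x.2 G ≠ 0 →
      weight w x.2 = D ∧ weight w x.1 + D = weight w β := by
    intro x hx h
    rw [Finset.HasAntidiagonal.mem_antidiagonal] at hx
    have h1 := hG h
    refine ⟨h1, ?_⟩
    rw [← hx, map_add, h1]
  split_ifs with h1 h2 h2
  · rw [coeff_mul, coeff_mul]
    refine Finset.sum_congr rfl fun x hx => ?_
    by_cases h : coeff x.2 G = 0
    · rw [h, mul_zero, mul_zero]
    · obtain ⟨h3, h4⟩ := key x hx h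
      rw [coeff_weightedHomogeneousComponent, if_pos (by omega)]
  · rw [coeff_zero, coeff_mul]
    apply Finset.sum_eq_zero
    intro x hx
    by_cases h : coeff x.2 G = 0
    · rw [h, mul_zero]
    · obtain ⟨h3, h4⟩ := key x hx h
      omega
  · rw [coeff_mul]
    symm
    apply Finset.sum_eq_zero
    intro x hx
    by_cases h : coeff x.2 G = 0
    · rw [h, mul_zero]
    · obtain ⟨h3, h4⟩ := key x hx h
      rw [coeff_weightedHomogeneousComponent, if_neg (by omega), zero_mul]
  · rw [coeff_zero]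

theorem component_mem (w : σ → ℕ) {ι : Type*} [Finite ι] {g : ι → MvPowerSeries σ k} {D : ι → ℕ}
    (hg : ∀ j, (g j).IsWeightedHomogeneous w (D j)) {f : MvPowerSeries σ k}
    (hf : f ∈ Ideal.span (Set.range g)) (t : ℕ) :
    weightedHomogeneousComponent w t f ∈ Ideal.span (Set.range g) := by
  classical
  cases nonempty_fintype ι
  rw [Ideal.mem_span_range_iff_exists_fun] at hf
  obtain ⟨c, rfl⟩ := hf
  rw [map_sum]
  apply Ideal.sum_mem
  intro j _
  rw [component_mul w (hg j)]
  split_ifs
  · exact Ideal.mul_mem_left _ _ (Ideal.subset_span ⟨j, rfl⟩)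
  · exact zero_mem _

/-- Power series all of whose terms have weight at least `n`. -/
def wIdeal (k : Type*) [Field k] {σ : Type*} (w : σ → ℕ) (n : ℕ) : Ideal (MvPowerSeries σ k) where
  carrier := {f | ∀ β, weight w β < n → coeff β f = 0}
  zero_mem' := fun β _ => by rw [coeff_zero]
  add_mem' := fun {f g} hf hg β hβ => by rw [map_add, hf β hβ, hg β hβ, add_zero]
  smul_mem' := fun c f hf β hβ => by
    classical
    rw [smul_eq_mul, coeff_mul]
    apply Finset.sum_eq_zero
    intro x hx
    rw [Finset.HasAntidiagonal.mem_antidiagonal] at hx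
    have h1 : weight w x.1 + weight w x.2 = weight w β := by rw [← hx, map_add]
    rw [hf x.2 (by omega), mul_zero]

theorem mem_wIdeal {w : σ → ℕ} {n : ℕ} {f : MvPowerSeries σ k} :
    f ∈ wIdeal k w n ↔ ∀ β, weight w β < n → coeff β f = 0 := Iff.rfl

theorem component_wIdeal {w : σ → ℕ} {n t : ℕ} (ht : t < n) {f : MvPowerSeries σ k}
    (hf : f ∈ wIdeal k w n) : weightedHomogeneousComponent w t f = 0 := by
  ext β
  rw [coeff_weightedHomogeneousComponent, coeff_zero]
  split_ifs with h
  · exact hf β (by omega)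
  · rfl

theorem wIdeal_mul {w : σ → ℕ} {a b : ℕ} : wIdeal k w a * wIdeal k w b ≤ wIdeal k w (a + b) := by
  classical
  rw [Ideal.mul_le]
  intro f hf g hg β hβ
  rw [coeff_mul]
  apply Finset.sum_eq_zero
  intro x hx
  rw [Finset.HasAntidiagonal.mem_antidiagonal] at hx
  have h1 : weight w x.1 + weight w x.2 = weight w β := by rw [← hx, map_add]
  by_cases h2 : weight w x.1 < a
  · rw [hf x.1 h2, zero_mul]
  · rw [hg x.2 (by omega), mul_zero]

theorem wIdeal_pow {w : σ → ℕ} (n : ℕ) : wIdeal k w 1 ^ n ≤ wIdeal k w n := by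
  induction n with
  | zero =>
    intro f _ β hβ
    omega
  | succ n ih =>
    rw [pow_succ]
    exact (Ideal.mul_mono_left ih).trans wIdeal_mul

theorem maximalIdeal_le_wIdeal {w : σ → ℕ} (hw : ∀ i, 0 < w i) :
    IsLocalRing.maximalIdeal (MvPowerSeries σ k) ≤ wIdeal k w 1 := by
  intro f hf β hβ
  have h1 : β = 0 := by
    have h2 : weight w β = 0 := by omega
    rw [weight_apply, Finsupp.sum, Finset.sum_eq_zero_iff] at h2
    by_contra hne
    obtain ⟨i, hi⟩ := Finsupp.support_nonempty_iff.2 hne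
    have h3 := h2 i hi
    rw [smul_eq_mul, mul_eq_zero] at h3
    rcases h3 with h3 | h3
    · exact (Finsupp.mem_support_iff.1 hi) h3
    · exact (hw i).ne' h3
  subst h1
  by_contra hne
  rw [IsLocalRing.mem_maximalIdeal] at hf
  apply hf
  rw [isUnit_iff_constantCoeff]
  exact isUnit_iff_ne_zero.2 hne

variable (p : ℕ) [Fact p.Prime] [CharP k p]

/-- The twisted coordinates of a functional. -/
noncomputable def tw (w : σ → ℕ) (m q c : ℕ) (y : MvPowerSeries σ k) : MvPowerSeries σ k :=
  fun β => if c = m + q * weight w β then coeff β y else 0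

theorem coeff_tw (w : σ → ℕ) (m q c : ℕ) (y : MvPowerSeries σ k) (β : σ →₀ ℕ) :
    coeff β (tw w m q c y) = if c = m + q * weight w β then coeff β y else 0 := rfl

variable {p} in
theorem coeff_coord_mul_tw {e : ℕ} (w : σ → ℕ) (κ : FPush p e k →ₗ[k] k) (α : σ →₀ ℕ)
    (y : MvPowerSeries σ k) (m : ℕ) {G : MvPowerSeries σ k} {c : ℕ}
    (hG : G.IsWeightedHomogeneous w c) (β : σ →₀ ℕ) :
    coeff β (coord κ α G * tw w m (p ^ e) (weight w α) y) =
      if c = m + p ^ e * weight w β then coeff β (coord κ α G * y) else 0 := by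
  classical
  have hq : 0 < p ^ e := pow_pos (Fact.out : p.Prime).pos e
  have key : ∀ x ∈ Finset.HasAntidiagonal.antidiagonal β, coeff x.1 (coord κ α G) ≠ 0 →
      (weight w α = m + p ^ e * weight w x.2 ↔ c = m + p ^ e * weight w β) := by
    intro x hx h
    rw [Finset.HasAntidiagonal.mem_antidiagonal] at hx
    have h1 : coeff (p ^ e • x.1 + α) G ≠ 0 := by
      intro h2
      apply h
      rw [coeff_coord, h2]
      exact map_zero κ
    have h2 := hG h1
    rw [map_add, map_nsmul, smul_eq_mul] at h2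
    have h3 : weight w x.1 + weight w x.2 = weight w β := by rw [← hx, map_add]
    rw [← h2, ← h3, mul_add]
    constructor
    · intro h4
      omega
    · intro h4
      omega
  rw [coeff_mul]
  split_ifs with h
  · rw [coeff_mul]
    refine Finset.sum_congr rfl fun x hx => ?_
    by_cases h1 : coeff x.1 (coord κ α G) = 0
    · rw [h1, zero_mul, zero_mul]
    · rw [coeff_tw, if_pos ((key x hx h1).2 h)]
  · apply Finset.sum_eq_zero
    intro x hx
    by_cases h1 : coeff x.1 (coord κ α G) = 0
    · rw [h1, zero_mul]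
    · rw [coeff_tw, if_neg (fun h2 => h ((key x hx h1).1 h2)), mul_zero]

variable {p}

/-- The lift of degree `-m/q` of a functional with coordinates `y`. -/
noncomputable def lft {e : ℕ} {δ : Type*} [Fintype δ] (b : Module.Basis δ k (FPush p e k))
    (box : Finset (σ →₀ ℕ)) (w : σ → ℕ) (m : ℕ) (y : (σ →₀ ℕ) → δ → MvPowerSeries σ k)
    (f : MvPowerSeries σ k) : MvPowerSeries σ k :=
  ∑ α ∈ box, ∑ l, coord (b.coord l) α f * tw w m (p ^ e) (weight w α) (y α l)

theorem lft_add {e : ℕ} {δ : Type*} [Fintype δ] (b : Module.Basis δ k (FPush p e k))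
    (box : Finset (σ →₀ ℕ)) (w : σ → ℕ) (m : ℕ) (y : (σ →₀ ℕ) → δ → MvPowerSeries σ k)
    (f g : MvPowerSeries σ k) : lft b box w m y (f + g) = lft b box w m y f + lft b box w m y g := by
  unfold lft
  rw [← Finset.sum_add_distrib]
  refine Finset.sum_congr rfl fun α _ => ?_
  rw [← Finset.sum_add_distrib]
  refine Finset.sum_congr rfl fun l _ => ?_
  rw [coord_add, add_mul]

theorem lft_pow_mul {e : ℕ} {δ : Type*} [Fintype δ] (b : Module.Basis δ k (FPush p e k))
    {box : Finset (σ →₀ ℕ)} (hbox : ∀ α, α ∈ box ↔ ∀ j, α j < p ^ e) (w : σ → ℕ) (m : ℕ)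
    (y : (σ →₀ ℕ) → δ → MvPowerSeries σ k) (s f : MvPowerSeries σ k) :
    lft b box w m y (s ^ p ^ e * f) = s * lft b box w m y f := by
  unfold lft
  rw [Finset.mul_sum]
  refine Finset.sum_congr rfl fun α hα => ?_
  rw [Finset.mul_sum]
  refine Finset.sum_congr rfl fun l _ => ?_
  rw [coord_pow_mul _ ((hbox α).1 hα), mul_assoc]

theorem lft_sum {e : ℕ} {δ : Type*} [Fintype δ] (b : Module.Basis δ k (FPush p e k))
    (box : Finset (σ →₀ ℕ)) (w : σ → ℕ) (m : ℕ) (y : (σ →₀ ℕ) → δ → MvPowerSeries σ k)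
    {ι : Type*} (s : Finset ι) (f : ι → MvPowerSeries σ k) :
    lft b box w m y (∑ i ∈ s, f i) = ∑ i ∈ s, lft b box w m y (f i) := by
  classical
  have h0 : lft b box w m y 0 = 0 := by
    have := lft_add b box w m y 0 0
    rw [add_zero] at this
    exact left_eq_add.1 this
  induction s using Finset.induction_on with
  | empty => simp [h0]
  | insert a s ha ih => rw [Finset.sum_insert ha, Finset.sum_insert ha, lft_add, ih]

theorem coeff_lft {e : ℕ} {δ : Type*} [Fintype δ] (b : Module.Basis δ k (FPush p e k))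
    (box : Finset (σ →₀ ℕ)) (w : σ → ℕ) (m : ℕ) (y : (σ →₀ ℕ) → δ → MvPowerSeries σ k)
    {G : MvPowerSeries σ k} {c : ℕ} (hG : G.IsWeightedHomogeneous w c) (β : σ →₀ ℕ) :
    coeff β (lft b box w m y G) = if c = m + p ^ e * weight w β then
      coeff β (∑ α ∈ box, ∑ l, coord (b.coord l) α G * y α l) else 0 := by
  classical
  unfold lft
  simp only [map_sum, coeff_coord_mul_tw w _ _ _ m hG]
  split_ifs with h
  · rfl
  · simp

/-- A homogeneous element of the ideal is mapped to the ideal. -/
theorem lft_mem_of_homog {e : ℕ} {δ : Type*} [Fintype δ] (b : Module.Basis δ k (FPush p e k))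
    (box : Finset (σ →₀ ℕ)) (w : σ → ℕ) (m n : ℕ) (y : (σ →₀ ℕ) → δ → MvPowerSeries σ k)
    (𝔞 : Ideal (MvPowerSeries σ k))
    (h𝔞 : ∀ f ∈ 𝔞, ∀ t, weightedHomogeneousComponent w t f ∈ 𝔞)
    {G : MvPowerSeries σ k} {c : ℕ} (hG : G.IsWeightedHomogeneous w c) (hc : c < p ^ e * n)
    (hy : ∑ α ∈ box, ∑ l, coord (b.coord l) α G * y α l ∈ 𝔞 ⊔ wIdeal k w n) :
    lft b box w m y G ∈ 𝔞 := by
  classical
  have hq : 0 < p ^ e := pow_pos (Fact.out : p.Prime).pos e
  by_cases h : ∃ t, c = m + p ^ e * t
  · obtain ⟨t, ht⟩ := h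
    have h1 : lft b box w m y G = weightedHomogeneousComponent w t
        (∑ α ∈ box, ∑ l, coord (b.coord l) α G * y α l) := by
      ext β
      rw [coeff_lft b box w m y hG, coeff_weightedHomogeneousComponent]
      have h2 : c = m + p ^ e * weight w β ↔ weight w β = t := by
        rw [ht]
        constructor
        · intro h3
          exact (Nat.eq_of_mul_eq_mul_left hq (by omega)).symm
        · rintro rfl
          rfl
      simp only [h2]
    rw [h1]
    rw [Submodule.mem_sup] at hy
    obtain ⟨a, ha, z, hz, haz⟩ := hy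
    rw [← haz, map_add]
    have htn : t < n := by
      have : p ^ e * t < p ^ e * n := by omega
      exact lt_of_mul_lt_mul_left this (Nat.zero_le _)
    rw [component_wIdeal htn hz, add_zero]
    exact h𝔞 a ha t
  · have h1 : lft b box w m y G = 0 := by
      ext β
      rw [coeff_lft b box w m y hG, coeff_zero, if_neg fun h2 => h ⟨_, h2⟩]
    rw [h1]
    exact zero_mem _

end Pool.Agent.W_MP_35cfd6_ag
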