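import Mathlib
import Pool.Agent.W_MP_35cfd6_ag.Lift
import Pool.Agent.W_MP_35cfd6_ag.Len

/-!
Lifting functionals on the Frobenius pushforward of a graded ring, continued.
-/

namespace Pool.Agent.W_MP_35cfd6_ag

open MvPowerSeries Finsupp

variable {k σ : Type*} [Field k] {p : ℕ} [Fact p.Prime] [CharP k p]

/-- The identity, as an additive map to the pushforward. -/
def toFHom (p e : ℕ) (N : Type*) [AddCommGroup N] : N →+ FPush p e N where
  toFun := fun x => x
  map_zero' := rfl
  map_add' := fun _ _ => rfl

theorem smul_toFHom {e : ℕ} {R : Type*} [CommRing R] [CharP R p] (a x : R) :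
    a • (toFHom p e R x) = toFHom p e R (a ^ p ^ e * x) := fpush_smul a x

variable [Finite σ]

theorem toFHom_eq {e : ℕ} {δ : Type*} [Fintype δ] (b : Module.Basis δ k (FPush p e k))
    {box : Finset (σ →₀ ℕ)} (hbox : ∀ α, α ∈ box ↔ ∀ j, α j < p ^ e)
    {R : Type*} [CommRing R] [CharP R p] (π : MvPowerSeries σ k →+* R) (f : MvPowerSeries σ k) :
    toFHom p e R (π f) =
      ∑ α ∈ box, ∑ l, π (coord (b.coord l) α f) • toFHom p e R (π (monomial α (ofF (b l)))) := by
  conv_lhs => rw [← coord_sum_eq p b box hbox f]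
  rw [map_sum, map_sum]
  refine Finset.sum_congr rfl fun α _ => ?_
  rw [map_sum, map_sum]
  refine Finset.sum_congr rfl fun l _ => ?_
  rw [smul_toFHom, map_mul, map_pow]

/-- The Frobenius pushforward of a quotient of a power series ring is finite. -/
theorem fpush_finite {e : ℕ} {δ : Type*} [Fintype δ] (b : Module.Basis δ k (FPush p e k))
    {R : Type*} [CommRing R] [CharP R p] (π : MvPowerSeries σ k →+* R)
    (hπ : Function.Surjective π) : Module.Finite R (FPush p e R) := by
  classical
  have hq : 0 < p ^ e := pow_pos (Fact.out : p.Prime).pos e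
  let box : Finset (σ →₀ ℕ) := Finset.Iic (Finsupp.equivFunOnFinite.symm fun _ => p ^ e - 1)
  have hbox : ∀ α, α ∈ box ↔ ∀ j, α j < p ^ e := by
    intro α
    simp only [box, Finset.mem_Iic]
    constructor
    · intro h j
      have : α j ≤ p ^ e - 1 := h j
      omega
    · intro h j
      have := h j
      change α j ≤ p ^ e - 1
      omega
  refine ⟨⟨(box ×ˢ (Finset.univ : Finset δ)).image
    fun x => toFHom p e R (π (monomial x.1 (ofF (b x.2)))), ?_⟩⟩
  rw [eq_top_iff]
  rintro x -
  obtain ⟨f, hf⟩ := hπ x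
  have hx : x = toFHom p e R (π f) := hf.symm
  rw [hx, toFHom_eq b hbox π f]
  refine Submodule.sum_mem _ fun α hα => Submodule.sum_mem _ fun l _ =>
    Submodule.smul_mem _ _ (Submodule.subset_span ?_)
  rw [Finset.coe_image]
  exact ⟨(α, l), by simpa using hα, rfl⟩

theorem lift_functional (w : σ → ℕ) {ι : Type*} [Finite ι] {g : ι → MvPowerSeries σ k}
    {D : ι → ℕ} (hg : ∀ j, (g j).IsWeightedHomogeneous w (D j)) {R : Type*} [CommRing R]
    [Nontrivial R] [CharP R p] (π : MvPowerSeries σ k →+* R) (hπ : Function.Surjective π)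
    (hker : RingHom.ker π = Ideal.span (Set.range g)) {n : ℕ} (hn0 : 0 < n)
    (hn : ∀ (q : ℕ) (α : σ →₀ ℕ), 0 < q → (∀ j, α j < q) → ∀ i, weight w α + D i < q * n)
    {e : ℕ} [Module.Finite k (FPush p e k)] {Q : Ideal R} (hQ : Q = (wIdeal k w n).map π)
    (φ : FPush p e R →ₗ[R] R ⧸ Q) (r : FPush p e R) (hr : φ r = 1) :
    ∃ Φ : FPush p e R →ₗ[R] R, IsUnit (Φ r) := by
  classical
  have hq : 0 < p ^ e := pow_pos (Fact.out : p.Prime).pos e
  let box : Finset (σ →₀ ℕ) := Finset.Iic (Finsupp.equivFunOnFinite.symm fun _ => p ^ e - 1)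
  have hbox : ∀ α, α ∈ box ↔ ∀ j, α j < p ^ e := by
    intro α
    simp only [box, Finset.mem_Iic]
    constructor
    · intro h j
      have : α j ≤ p ^ e - 1 := h j
      omega
    · intro h j
      have := h j
      change α j ≤ p ^ e - 1
      omega
  let b := Module.finBasis k (FPush p e k)
  have hex : ∀ (α : σ →₀ ℕ) (l : Fin (Module.finrank k (FPush p e k))),
      ∃ y : MvPowerSeries σ k, Ideal.Quotient.mk Q (π y) =
        φ (toFHom p e R (π (monomial α (ofF (b l))))) := by
    intro α l
    obtain ⟨x, hx⟩ := Ideal.Quotient.mk_surjective (φ (toFHom p e R (π (monomial α (ofF (b l))))))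
    obtain ⟨y, rfl⟩ := hπ x
    exact ⟨y, hx⟩
  choose y hy using hex
  have hφ : ∀ f : MvPowerSeries σ k, φ (toFHom p e R (π f)) =
      Ideal.Quotient.mk Q (π (∑ α ∈ box, ∑ l, coord (b.coord l) α f * y α l)) := by
    intro f
    rw [toFHom_eq b hbox π f, map_sum, map_sum, map_sum]
    refine Finset.sum_congr rfl fun α _ => ?_
    rw [map_sum, map_sum, map_sum]
    refine Finset.sum_congr rfl fun l _ => ?_
    rw [map_smul, ← hy, map_mul, map_mul, Algebra.smul_def, Ideal.Quotient.algebraMap_eq]
  have hsup : ∀ f z : MvPowerSeries σ k, π f - π z ∈ Q → f - z ∈ RingHom.ker π ⊔ wIdeal k w n := by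
    intro f z h
    rw [hQ, Ideal.mem_map_iff_of_surjective π hπ] at h
    obtain ⟨h', hh', hh⟩ := h
    rw [Submodule.mem_sup]
    refine ⟨f - z - h', ?_, h', hh', by ring⟩
    rw [RingHom.mem_ker, map_sub, map_sub, hh, sub_self]
  have h𝔞 : ∀ f ∈ RingHom.ker π, ∀ t, weightedHomogeneousComponent w t f ∈ RingHom.ker π := by
    intro f hf t
    rw [hker] at hf ⊢
    exact component_mem w hg hf t
  -- membership in the ideal
  have hlift : ∀ (m : ℕ) (G : MvPowerSeries σ k), G ∈ RingHom.ker π →
      lft b box w m y G ∈ RingHom.ker π := by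
    intro m G hG
    have hgen : ∀ (α : σ →₀ ℕ), α ∈ box → ∀ (l : Fin (Module.finrank k (FPush p e k))) (j : ι),
        lft b box w m y (monomial α (ofF (b l)) * g j) ∈ RingHom.ker π := by
      intro α hα l j
      have hmono : (monomial α (ofF (b l)) : MvPowerSeries σ k).IsWeightedHomogeneous w
          (weight w α) := by
        intro d hd
        have := eq_of_coeff_monomial_ne_zero hd
        rw [this]
      apply lft_mem_of_homog b box w m n y (RingHom.ker π) h𝔞 (hmono.mul (hg j))
      · exact hn (p ^ e) α hq ((hbox α).1 hα) j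
      · have h1 : (monomial α (ofF (b l)) * g j : MvPowerSeries σ k) ∈ RingHom.ker π := by
          rw [hker]
          exact Ideal.mul_mem_left _ _ (Ideal.subset_span ⟨j, rfl⟩)
        have h2 := hφ (monomial α (ofF (b l)) * g j)
        rw [(RingHom.mem_ker).1 h1, map_zero, map_zero] at h2
        have h3 := Ideal.Quotient.eq_zero_iff_mem.1 h2.symm
        have h4 := hsup (∑ α' ∈ box, ∑ l', coord (b.coord l') α'
          (monomial α (ofF (b l)) * g j) * y α' l') 0 (by rw [map_zero, sub_zero]; exact h3)
        rwa [sub_zero] at h4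
    have hG' := hG
    rw [hker] at hG'
    cases nonempty_fintype ι
    rw [Ideal.mem_span_range_iff_exists_fun] at hG'
    obtain ⟨c, rfl⟩ := hG'
    have hcj : ∀ j, c j * g j = ∑ α ∈ box, ∑ l, coord (b.coord l) α (c j) ^ p ^ e *
        (monomial α (ofF (b l)) * g j) := by
      intro j
      conv_lhs => rw [← coord_sum_eq p b box hbox (c j)]
      rw [Finset.sum_mul]
      refine Finset.sum_congr rfl fun α _ => ?_
      rw [Finset.sum_mul]
      refine Finset.sum_congr rfl fun l _ => ?_
      rw [mul_assoc]
    rw [lft_sum]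
    apply Ideal.sum_mem
    intro j _
    rw [hcj j, lft_sum]
    apply Ideal.sum_mem
    intro α hα
    rw [lft_sum]
    apply Ideal.sum_mem
    intro l _
    rw [lft_pow_mul b hbox]
    exact Ideal.mul_mem_left _ _ (hgen α hα l j)
  -- the unit value
  obtain ⟨r', hr'⟩ := hπ r
  have hr2 : r = toFHom p e R (π r') := hr'.symm
  have hnu : ∀ f : MvPowerSeries σ k, f ∈ RingHom.ker π ⊔ wIdeal k w n → constantCoeff f = 0 := by
    intro f hf
    rw [Submodule.mem_sup] at hf
    obtain ⟨a, ha, z, hz, rfl⟩ := hf
    have h1 : constantCoeff a = 0 := by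
      by_contra hne
      have h2 : IsUnit a := isUnit_iff_constantCoeff.2 (isUnit_iff_ne_zero.2 hne)
      have h3 := h2.map π
      rw [(RingHom.mem_ker).1 ha] at h3
      exact not_isUnit_zero h3
    have h2 : constantCoeff z = 0 := hz 0 (by simpa using hn0)
    rw [map_add, h1, h2, add_zero]
  have hone : constantCoeff (∑ α ∈ box, ∑ l, coord (b.coord l) α r' * y α l) = 1 := by
    have h1 := hφ r'
    rw [← hr2, hr] at h1
    have h2 : π (∑ α ∈ box, ∑ l, coord (b.coord l) α r' * y α l) - π 1 ∈ Q := by
      rw [map_one]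
      exact (Ideal.Quotient.eq).1 (by rw [map_one]; exact h1.symm)
    have h3 := hnu _ (hsup _ _ h2)
    rw [map_sub, map_one, sub_eq_zero] at h3
    exact h3
  obtain ⟨m, hm⟩ : ∃ m, constantCoeff (lft b box w m y r') ≠ 0 := by
    by_contra hcon
    push Not at hcon
    have h1 : ∀ m, constantCoeff (lft b box w m y r') = ∑ α ∈ box,
        if weight w α = m then constantCoeff (∑ l, coord (b.coord l) α r' * y α l) else 0 := by
      intro m
      unfold lft
      rw [map_sum]
      refine Finset.sum_congr rfl fun α _ => ?_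
      rw [map_sum, map_sum]
      have h2 : ∀ l, constantCoeff (tw w m (p ^ e) (weight w α) (y α l)) =
          if weight w α = m then constantCoeff (y α l) else 0 := by
        intro l
        rw [← coeff_zero_eq_constantCoeff_apply, coeff_tw, map_zero, mul_zero, add_zero,
          coeff_zero_eq_constantCoeff_apply]
      split_ifs with h
      · refine Finset.sum_congr rfl fun l _ => ?_
        rw [map_mul, map_mul, h2 l, if_pos h]
      · apply Finset.sum_eq_zero
        intro l _
        rw [map_mul, h2 l, if_neg h, mul_zero]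
    have h2 : ∑ m ∈ box.image (weight w), constantCoeff (lft b box w m y r') = 1 := by
      rw [← hone, map_sum]
      simp only [h1]
      rw [Finset.sum_comm]
      refine Finset.sum_congr rfl fun α hα => ?_
      rw [Finset.sum_ite_eq, if_pos (Finset.mem_image_of_mem _ hα)]
    rw [Finset.sum_eq_zero fun m _ => hcon m] at h2
    exact zero_ne_one h2
  -- the functional
  have hwd : ∀ f f' : MvPowerSeries σ k, π f = π f' →
      π (lft b box w m y f) = π (lft b box w m y f') := by
    intro f f' h
    have h1 : f - f' ∈ RingHom.ker π := by rw [RingHom.mem_ker, map_sub, h, sub_self]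
    have h2 := hlift m _ h1
    have h3 : lft b box w m y f = lft b box w m y (f - f') + lft b box w m y f' := by
      rw [← lft_add, sub_add_cancel]
    rw [h3, map_add, (RingHom.mem_ker).1 h2, zero_add]
  choose s hs using hπ
  let Φ : FPush p e R →ₗ[R] R :=
    { toFun := fun x => π (lft b box w m y (s (ofF x)))
      map_add' := by
        intro x x'
        rw [← map_add, ← lft_add]
        apply hwd
        rw [map_add, hs, hs, hs]
        rfl
      map_smul' := by
        intro a x
        rw [RingHom.id_apply, smul_eq_mul]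
        have h1 : π (lft b box w m y (s (ofF (a • x)))) =
            π (lft b box w m y ((s a) ^ p ^ e * s (ofF x))) := by
          apply hwd
          rw [hs, map_mul, map_pow, hs, hs]
          exact fpush_smul a x
        rw [h1, lft_pow_mul b hbox, map_mul, hs] }
  refine ⟨Φ, ?_⟩
  have h1 : Φ r = π (lft b box w m y r') := by
    change π (lft b box w m y (s (ofF r))) = _
    apply hwd
    rw [hs, hr']
    rfl
  rw [h1]
  apply IsUnit.map
  rw [isUnit_iff_constantCoeff]
  exact isUnit_iff_ne_zero.2 hm

end Pool.Agent.W_MP_35cfd6_ag
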