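import Mathlib
import Pool.Agent.W_MP_35cfd6_ag.Lift2
import Pool.Agent.W_MP_35cfd6_ag.Dual
import Pool.Agent.W_MP_35cfd6_ag.Irred2
import Pool.Agent.W_MP_35cfd6_ag.Identity

/-!
The relative Hilbert-Kunz identity for completed graded rings.
-/

namespace Pool.Agent.W_MP_35cfd6_ag

open IsLocalRing

theorem exists_isSocle_le' {R : Type*} [CommRing R] [IsLocalRing R] [IsNoetherianRing R]
    [IsDomain R] [IsIntegrallyClosed R] (hR : ¬ IsField R) {K : Ideal R} (hK : K ≠ ⊤)
    {N : ℕ} (hN : maximalIdeal R ^ N ≤ K) : ∃ (I : Ideal R) (v : R), IsSocle I v ∧ I ≤ K := by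
  by_cases hp : (maximalIdeal R).IsPrincipal
  · obtain ⟨t, ht⟩ := hp
    rw [Ideal.submodule_span_eq] at ht
    have ht0 : t ≠ 0 := by
      rintro rfl
      apply hR
      rw [Ideal.span_singleton_eq_bot.2 rfl] at ht
      exact IsLocalRing.isField_iff_maximalIdeal_eq.2 ht
    have htm : t ∈ maximalIdeal R := by
      rw [ht]
      exact Ideal.mem_span_singleton_self t
    refine ⟨Ideal.span {t ^ (N + 1)}, t ^ N, ⟨?_, ?_⟩, ?_⟩
    · intro h
      rw [Ideal.mem_span_singleton'] at h
      obtain ⟨a, ha⟩ := h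
      have h1 : (a * t) * t ^ N = 1 * t ^ N := by
        rw [one_mul]
        rw [pow_succ] at ha
        linear_combination ha
      have h2 := mul_right_cancel₀ (pow_ne_zero N ht0) h1
      have h3 : a * t ∈ maximalIdeal R := (maximalIdeal R).mul_mem_left a htm
      rw [h2] at h3
      exact (mem_maximalIdeal _).1 h3 isUnit_one
    · intro L hL
      obtain ⟨a, haL, ha⟩ := Set.exists_of_ssubset hL
      have hex : ∃ j, a ∉ Ideal.span {t ^ j} := ⟨N + 1, ha⟩
      classical
      have hj := Nat.find_spec hex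
      have hjN : Nat.find hex ≤ N + 1 := Nat.find_min' hex ha
      obtain ⟨j, hj'⟩ : ∃ j, Nat.find hex = j + 1 := by
        cases h : Nat.find hex with
        | zero =>
          rw [h, pow_zero, Ideal.span_singleton_one] at hj
          exact absurd Submodule.mem_top hj
        | succ j => exact ⟨j, rfl⟩
      have hmin := Nat.find_min hex (m := j) (by omega)
      rw [not_not, Ideal.mem_span_singleton'] at hmin
      obtain ⟨c, hc⟩ := hmin
      have hcu : IsUnit c := by
        by_contra hnu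
        apply hj
        have h1 : c ∈ maximalIdeal R := (mem_maximalIdeal _).2 hnu
        rw [ht, Ideal.mem_span_singleton'] at h1
        obtain ⟨d, hd⟩ := h1
        rw [hj', Ideal.mem_span_singleton']
        refine ⟨d, ?_⟩
        rw [← hc, ← hd]
        ring
      have h1 : t ^ j ∈ L := by
        rw [← hc] at haL
        exact (Ideal.unit_mul_mem_iff_mem L hcu).1 haL
      have h2 : t ^ N = t ^ (N - j) * t ^ j := by
        rw [← pow_add]
        congr 1
        omega
      rw [h2]
      exact L.mul_mem_left _ h1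
    · rw [Ideal.span_singleton_le_iff_mem]
      apply hN
      rw [pow_succ]
      exact Ideal.mul_mem_right _ _ (Ideal.pow_mem_pow htm N)
  · exact exists_isSocle_le hp hK hN

theorem finite_fpush_field {k : Type*} [Field k] {p : ℕ} [Fact p.Prime] [CharP k p]
    (hk : (frobenius k p).Finite) (e : ℕ) : Module.Finite k (FPush p e k) := by
  have h : ∀ e, (iterateFrobenius k p e).Finite := by
    intro e
    induction e with
    | zero =>
      rw [iterateFrobenius_zero]
      exact RingHom.Finite.id k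
    | succ e ih =>
      have : iterateFrobenius k p (e + 1) = (iterateFrobenius k p e).comp (frobenius k p) := by
        rw [iterateFrobenius_add, iterateFrobenius_one]
      rw [this]
      exact RingHom.Finite.comp ih hk
  have h1 := h e
  exact h1

theorem finite_fpush_of_surjective {k κ : Type*} [Field k] [Field κ] {p : ℕ} [Fact p.Prime]
    [CharP k p] [CharP κ p] (ψ : k →+* κ) (hψ : Function.Surjective ψ) {e : ℕ}
    (h : Module.Finite k (FPush p e k)) : Module.Finite κ (FPush p e κ) := by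
  classical
  obtain ⟨s, hs⟩ := h
  refine ⟨⟨s.image fun x => toFHom p e κ (ψ (ofF x)), ?_⟩⟩
  rw [eq_top_iff]
  rintro x -
  obtain ⟨c, hc⟩ := hψ (ofF x)
  have hx : x = toFHom p e κ (ψ (ofF (toFHom p e k c))) := hc.symm
  rw [hx]
  have hcs : toFHom p e k c ∈ Submodule.span k (s : Set (FPush p e k)) := by
    rw [hs]
    exact Submodule.mem_top
  refine Submodule.span_induction (p := fun y _ => toFHom p e κ (ψ (ofF y)) ∈
    Submodule.span κ ((s.image fun x => toFHom p e κ (ψ (ofF x)) : Finset (FPush p e κ)) :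
      Set (FPush p e κ))) ?_ ?_ ?_ ?_ hcs
  · intro y hy
    apply Submodule.subset_span
    rw [Finset.coe_image]
    exact ⟨y, hy, rfl⟩
  · have : toFHom p e κ (ψ (ofF (0 : FPush p e k))) = 0 := by
      change toFHom p e κ (ψ 0) = 0
      rw [map_zero, map_zero]
    rw [this]
    exact zero_mem _
  · intro y z _ _ hy hz
    have : toFHom p e κ (ψ (ofF (y + z))) =
        toFHom p e κ (ψ (ofF y)) + toFHom p e κ (ψ (ofF z)) := by
      change toFHom p e κ (ψ (ofF y + ofF z)) = _
      rw [map_add, map_add]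
    rw [this]
    exact Submodule.add_mem _ hy hz
  · intro a y _ hy
    have : toFHom p e κ (ψ (ofF (a • y))) = ψ a • toFHom p e κ (ψ (ofF y)) := by
      rw [smul_toFHom, ← map_pow, ← map_mul]
      congr 2
    rw [this]
    exact Submodule.smul_mem _ _ hy

/-- The identity, from a lifting property. -/
theorem identity_of_lift {p : ℕ} [Fact p.Prime] {k R : Type*} [Field k] [CommRing R] [IsDomain R]
    [IsLocalRing R] [IsNoetherianRing R] [IsIntegrallyClosed R] [CharP R p] [Algebra k R]
    (hk : ∀ r : R, ∃ c : k, r - algebraMap k R c ∈ maximalIdeal R) (hR : ¬ IsField R)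
    (hfin : ∀ e, Module.Finite R (FPush p e R))
    (hfinκ : ∀ e, Module.Finite (ResidueField R) (FPush p e (ResidueField R)))
    {Q : Ideal R} {N : ℕ} (hN : maximalIdeal R ^ N ≤ Q)
    (hlift : ∀ (e : ℕ) (φ : FPush p e R →ₗ[R] R ⧸ Q) (r : FPush p e R), φ r = 1 →
      ∃ Φ : FPush p e R →ₗ[R] R, IsUnit (Φ r)) :
    ∃ I J : Ideal R, I < J ∧ I.radical = maximalIdeal R ∧ J.radical = maximalIdeal R ∧
      ∀ e : ℕ, (freeRank R (FPush p e R) : ℚ) /
        (Module.finrank (ResidueField R) (FPush p e (ResidueField R)) : ℚ) =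
      ((HK p I e : ℚ) - (HK p J e : ℚ)) / (lengthBetween I J : ℚ) := by
  classical
  have hmtop : maximalIdeal R ≠ ⊤ := Ideal.IsPrime.ne_top inferInstance
  have hK : Q ⊓ maximalIdeal R ^ 2 ≠ ⊤ := by
    intro h
    have h1 : maximalIdeal R ^ 2 = ⊤ := top_le_iff.1 (h ▸ inf_le_right)
    exact hmtop (top_le_iff.1 (h1 ▸ Ideal.pow_le_self two_ne_zero))
  obtain ⟨I, u, hI, hIK⟩ := exists_isSocle_le' hR hK (N := N + 2)
    (le_inf ((Ideal.pow_le_pow_right (Nat.le_add_right N 2)).trans hN)
      (Ideal.pow_le_pow_right (by omega)))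
  obtain ⟨n, hn⟩ := hI.exists_pow_le
  have hIm : I ≤ maximalIdeal R := hIK.trans (inf_le_right.trans (Ideal.pow_le_self two_ne_zero))
  have hum : u ∈ maximalIdeal R := by
    by_contra hnu
    have hu : IsUnit u := by
      by_contra h
      exact hnu ((mem_maximalIdeal _).2 h)
    have h1 : maximalIdeal R ≤ maximalIdeal R ^ 2 := by
      intro a ha
      have h2 := hI.mul_mem ha
      rw [mul_comm] at h2
      exact (hIK ((Ideal.unit_mul_mem_iff_mem I hu).1 h2)).2
    apply hR
    rw [IsLocalRing.isField_iff_maximalIdeal_eq]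
    apply Submodule.eq_bot_of_le_smul_of_le_jacobson_bot (maximalIdeal R) _
      (IsNoetherian.noetherian _) _ (IsLocalRing.maximalIdeal_le_jacobson _)
    rw [smul_eq_mul, ← pow_two]
    exact h1
  have hIJ : I < I ⊔ Ideal.span {u} := by
    refine lt_of_le_of_ne le_sup_left fun h => hI.1 ?_
    rw [h]
    exact Ideal.mem_sup_right (Ideal.mem_span_singleton_self u)
  have hJm : I ⊔ Ideal.span {u} ≤ maximalIdeal R :=
    sup_le hIm ((Ideal.span_singleton_le_iff_mem _).2 hum)
  have hrad : ∀ L : Ideal R, I ≤ L → L ≤ maximalIdeal R → L.radical = maximalIdeal R := by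
    intro L h1 h2
    apply le_antisymm
    · exact (Ideal.IsPrime.radical_le_iff inferInstance).2 h2
    · intro a ha
      exact ⟨n, h1 (hn (Ideal.pow_mem_pow ha n))⟩
  refine ⟨I, I ⊔ Ideal.span {u}, hIJ, hrad I le_rfl hIm, hrad _ le_sup_left hJm, ?_⟩
  intro e
  have := hfin e
  have := hfinκ e
  apply identity hIJ hn
  rintro π hπ ⟨i, hi⟩
  apply le_antisymm _ (Submodule.smul_mono_left hIJ.le)
  rw [Submodule.sup_smul]
  apply sup_le le_rfl
  rw [Submodule.smul_le]
  intro a ha z _
  rw [Ideal.mem_span_singleton'] at ha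
  obtain ⟨c, rfl⟩ := ha
  rw [mul_smul]
  apply Submodule.smul_mem
  by_contra hz
  obtain ⟨φ, hφ⟩ := exists_functional hk hI (isFiniteLength_quot hn) z hz
  -- extend by zero
  have hproj : ∀ x : FPush p e R,
      ((LinearMap.id : FPush p e R →ₗ[R] FPush p e R) - i ∘ₗ π) x ∈ LinearMap.ker π := by
    intro x
    rw [LinearMap.mem_ker, LinearMap.sub_apply, LinearMap.id_apply, map_sub, sub_eq_zero]
    have h1 := LinearMap.congr_fun hi (π x)
    exact h1.symm
  let ρ : FPush p e R →ₗ[R] LinearMap.ker π :=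
    LinearMap.codRestrict (LinearMap.ker π) (LinearMap.id - i ∘ₗ π) hproj
  have hρz : ρ (z : FPush p e R) = z := by
    apply Subtype.ext
    change (z : FPush p e R) - i (π z) = z
    rw [(LinearMap.mem_ker).1 z.2, map_zero, sub_zero]
  have hIQ : I ≤ Q := hIK.trans inf_le_left
  let ψ : FPush p e R →ₗ[R] R ⧸ Q := (Submodule.factor hIQ) ∘ₗ φ ∘ₗ ρ
  have hψ : ψ z = 1 := by
    change Submodule.factor hIQ (φ (ρ (z : FPush p e R))) = 1
    rw [hρz, hφ]
    rfl
  obtain ⟨Φ, hΦ⟩ := hlift e ψ z hψ
  exact hπ (Φ ∘ₗ (LinearMap.ker π).subtype) z hΦ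

end Pool.Agent.W_MP_35cfd6_ag
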