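import Pool.Agent.W_MP_35cfd6_ag.Len

/-!
Splitting off the maximal free summand.
-/

namespace Pool.Agent.W_MP_35cfd6_ag

open IsLocalRing

variable {R M : Type*} [CommRing R] [AddCommGroup M] [Module R M]

theorem freeRank_mem [Nontrivial R] [Module.Finite R M] :
    ∃ (i : (Fin (freeRank R M) → R) →ₗ[R] M) (π : M →ₗ[R] (Fin (freeRank R M) → R)),
      π ∘ₗ i = LinearMap.id := by
  have hne : {n : ℕ | ∃ (i : (Fin n → R) →ₗ[R] M) (π : M →ₗ[R] (Fin n → R)),
      π ∘ₗ i = LinearMap.id}.Nonempty :=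
    ⟨0, 0, 0, by ext i; exact i.elim0⟩
  obtain ⟨g, f, hf⟩ := Module.Finite.exists_fin' R M
  have hbd : BddAbove {n : ℕ | ∃ (i : (Fin n → R) →ₗ[R] M) (π : M →ₗ[R] (Fin n → R)),
      π ∘ₗ i = LinearMap.id} := by
    refine ⟨g, ?_⟩
    rintro n ⟨i, π, h⟩
    have hs : Function.Surjective π := fun y => ⟨i y, by
      rw [← LinearMap.comp_apply, h, LinearMap.id_apply]⟩
    exact le_of_fin_surjective R (π ∘ₗ f) (hs.comp hf)
  exact Nat.sSup_mem hne hbd

theorem le_freeRank [Nontrivial R] [Module.Finite R M] {n : ℕ} (i : (Fin n → R) →ₗ[R] M)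
    (π : M →ₗ[R] (Fin n → R)) (h : π ∘ₗ i = LinearMap.id) : n ≤ freeRank R M := by
  obtain ⟨g, f, hf⟩ := Module.Finite.exists_fin' R M
  have hbd : BddAbove {n : ℕ | ∃ (i : (Fin n → R) →ₗ[R] M) (π : M →ₗ[R] (Fin n → R)),
      π ∘ₗ i = LinearMap.id} := by
    refine ⟨g, ?_⟩
    rintro n ⟨i, π, h⟩
    have hs : Function.Surjective π := fun y => ⟨i y, by
      rw [← LinearMap.comp_apply, h, LinearMap.id_apply]⟩
    exact le_of_fin_surjective R (π ∘ₗ f) (hs.comp hf)
  exact le_csSup hbd ⟨i, π, h⟩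

/-- The maximal free summand splits off, and the complement has no functional with unit values. -/
theorem exists_split [Nontrivial R] [Module.Finite R M] :
    ∃ (i : (Fin (freeRank R M) → R) →ₗ[R] M) (π : M →ₗ[R] (Fin (freeRank R M) → R)),
      π ∘ₗ i = LinearMap.id ∧ ∀ (f : LinearMap.ker π →ₗ[R] R) (z : LinearMap.ker π),
        ¬ IsUnit (f z) := by
  obtain ⟨i, π, h⟩ := freeRank_mem (R := R) (M := M)
  refine ⟨i, π, h, ?_⟩
  intro f z hz
  obtain ⟨c, hc⟩ := hz.exists_left_inv
  have hπi : ∀ v, π (i v) = v := fun v => by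
    rw [← LinearMap.comp_apply, h, LinearMap.id_apply]
  have hker : ∀ x, (LinearMap.id - i ∘ₗ π : M →ₗ[R] M) x ∈ LinearMap.ker π := by
    intro x
    rw [LinearMap.mem_ker, LinearMap.sub_apply, LinearMap.id_apply, LinearMap.comp_apply, map_sub,
      hπi, sub_self]
  let ρ : M →ₗ[R] LinearMap.ker π := LinearMap.codRestrict _ (LinearMap.id - i ∘ₗ π) hker
  have hρi : ∀ v, ρ (i v) = 0 := by
    intro v
    apply Subtype.ext
    change (LinearMap.id - i ∘ₗ π : M →ₗ[R] M) (i v) = 0
    rw [LinearMap.sub_apply, LinearMap.id_apply, LinearMap.comp_apply, hπi, sub_self]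
  have hρz : ρ z = z := by
    apply Subtype.ext
    change (LinearMap.id - i ∘ₗ π : M →ₗ[R] M) z = z
    rw [LinearMap.sub_apply, LinearMap.id_apply, LinearMap.comp_apply, LinearMap.mem_ker.1 z.2,
      map_zero, sub_zero]
  let π' : M →ₗ[R] (Fin (freeRank R M + 1) → R) := LinearMap.vecCons (c • (f ∘ₗ ρ)) π
  let i' : (Fin (freeRank R M + 1) → R) →ₗ[R] M :=
    LinearMap.toSpanSingleton R M z ∘ₗ LinearMap.proj 0 + i ∘ₗ LinearMap.funLeft R R Fin.succ
  have hi' : ∀ v, i' v = v 0 • (z : M) + i (fun j => v j.succ) := fun v => rfl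
  have key : π' ∘ₗ i' = LinearMap.id := by
    apply LinearMap.ext
    intro v
    funext j
    rw [LinearMap.comp_apply, LinearMap.id_apply, hi']
    refine Fin.cases ?_ (fun j => ?_) j
    · change (c • (f ∘ₗ ρ)) (v 0 • (z : M) + i (fun j => v j.succ)) = v 0
      rw [LinearMap.smul_apply, LinearMap.comp_apply, map_add, map_smul, hρi, hρz, add_zero,
        map_smul, smul_eq_mul, smul_eq_mul, mul_left_comm, hc, mul_one]
    · change π (v 0 • (z : M) + i (fun j => v j.succ)) j = v j.succ
      rw [map_add, map_smul, LinearMap.mem_ker.1 z.2, smul_zero, zero_add, hπi]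
  have := le_freeRank i' π' key
  omega

theorem length_quot_split {a : ℕ} (i : (Fin a → R) →ₗ[R] M) (π : M →ₗ[R] (Fin a → R))
    (h : π ∘ₗ i = LinearMap.id) (I : Ideal R) :
    Module.length R (M ⧸ (I • ⊤ : Submodule R M)) = a * Module.length R (R ⧸ I) +
      Module.length R (LinearMap.ker π ⧸ (I • ⊤ : Submodule R (LinearMap.ker π))) := by
  have hπi : ∀ v, π (i v) = v := fun v => by
    rw [← LinearMap.comp_apply, h, LinearMap.id_apply]
  have hker : ∀ x, (LinearMap.id - i ∘ₗ π : M →ₗ[R] M) x ∈ LinearMap.ker π := by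
    intro x
    rw [LinearMap.mem_ker, LinearMap.sub_apply, LinearMap.id_apply, LinearMap.comp_apply, map_sub,
      hπi, sub_self]
  let ρ : M →ₗ[R] LinearMap.ker π := LinearMap.codRestrict _ (LinearMap.id - i ∘ₗ π) hker
  have hρ : ∀ x, (ρ x : M) = x - i (π x) := fun x => rfl
  let F : M →ₗ[R] (Fin a → R ⧸ I) × (LinearMap.ker π ⧸ (I • ⊤ : Submodule R (LinearMap.ker π))) :=
    (LinearMap.pi fun j => Submodule.mkQ I ∘ₗ LinearMap.proj j ∘ₗ π).prod
      (Submodule.mkQ _ ∘ₗ ρ)
  have hF : ∀ x, F x = (fun j => Submodule.Quotient.mk (π x j), Submodule.Quotient.mk (ρ x)) :=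
    fun x => rfl
  have hsurj : Function.Surjective F := by
    rintro ⟨v, x⟩
    obtain ⟨v', hv'⟩ : ∃ v' : Fin a → R, ∀ j, Submodule.Quotient.mk (v' j) = v j := by
      choose v' hv' using fun j => Submodule.Quotient.mk_surjective I (v j)
      exact ⟨v', hv'⟩
    obtain ⟨x', rfl⟩ := Submodule.Quotient.mk_surjective _ x
    refine ⟨i v' + x', ?_⟩
    have h1 : π (i v' + x') = v' := by
      rw [map_add, hπi, LinearMap.mem_ker.1 x'.2, add_zero]
    have h2 : ρ (i v' + x') = x' := by
      apply Subtype.ext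
      rw [hρ, h1, add_sub_cancel_left]
    rw [hF, h1, h2]
    exact Prod.ext (funext hv') rfl
  have hkerF : LinearMap.ker F = (I • ⊤ : Submodule R M) := by
    apply le_antisymm
    · intro x hx
      rw [LinearMap.mem_ker, hF, Prod.mk_eq_zero] at hx
      obtain ⟨hx1, hx2⟩ := hx
      rw [Submodule.Quotient.mk_eq_zero] at hx2
      have h3 : x = i (π x) + ρ x := by
        rw [hρ]
        abel
      rw [h3]
      apply Submodule.add_mem
      · have h4 : i (π x) = ∑ j, π x j • i (Pi.single j 1) := by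
          conv_lhs => rw [pi_eq_sum_univ' (π x)]
          rw [map_sum]
          refine Finset.sum_congr rfl fun j _ => ?_
          rw [map_smul]
        rw [h4]
        refine Submodule.sum_mem _ fun j _ => Submodule.smul_mem_smul ?_ Submodule.mem_top
        have h5 := congrFun hx1 j
        rw [Pi.zero_apply, Submodule.Quotient.mk_eq_zero] at h5
        exact h5
      · have h6 : (I • ⊤ : Submodule R (LinearMap.ker π)).map (LinearMap.ker π).subtype ≤
            I • ⊤ := by
          rw [Submodule.map_smul'']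
          exact smul_mono_right _ le_top
        exact h6 (Submodule.mem_map_of_mem hx2)
    · rw [Submodule.smul_le]
      intro r hr x _
      rw [LinearMap.mem_ker, map_smul, hF]
      refine Prod.ext (funext fun j => ?_) ?_
      · change r • (Submodule.Quotient.mk (π x j) : R ⧸ I) = 0
        rw [← Submodule.Quotient.mk_smul, Submodule.Quotient.mk_eq_zero, smul_eq_mul]
        exact Ideal.mul_mem_right _ _ hr
      · change r • (Submodule.Quotient.mk (ρ x) : _ ⧸ (I • ⊤ : Submodule R (LinearMap.ker π))) = 0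
        rw [← Submodule.Quotient.mk_smul, Submodule.Quotient.mk_eq_zero]
        exact Submodule.smul_mem_smul hr Submodule.mem_top
  rw [← hkerF, ((F.quotKerEquivOfSurjective hsurj).length_eq), Module.length_prod,
    Module.length_pi_of_fintype, Finset.sum_const, Finset.card_univ, Fintype.card_fin,
    nsmul_eq_mul]

end Pool.Agent.W_MP_35cfd6_ag
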